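import Mathlib

set_option autoImplicit false

universe u

namespace Pool.Agent.Results.MP_221c76_co.InfinitelyMany

/-- A graph: a type of vertices, a type of edges (both may be infinite), and for each edge the
unordered pair of its ends. Loops and multiple edges are allowed. -/
structure MGraph where
  /-- vertices -/
  V : Type u
  /-- edges -/
  E : Type u
  /-- the ends of an edge -/
  ends : E → Sym2 V

/-- An embedding of `X` in `Y`: injective on vertices and on edges, and compatible with the ends.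
Its image is a subgraph of `Y` isomorphic to `X`, and every subgraph of `Y` isomorphic to `X` is
the image of an embedding. -/
structure Emb (X Y : MGraph.{u}) where
  /-- vertex map -/
  fV : X.V → Y.V
  /-- edge map -/
  fE : X.E → Y.E
  injV : Function.Injective fV
  injE : Function.Injective fE
  map_ends : ∀ e, Y.ends (fE e) = (X.ends e).map fV

/-- Isomorphism of graphs. -/
def Isomorphic (X Y : MGraph.{u}) : Prop :=
  ∃ φ : Emb X Y, Function.Surjective φ.fV ∧ Function.Surjective φ.fE

/-- The edge sets of the subgraphs of `Γ` that are isomorphic to some member of `P`. -/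
def copies (P : MGraph.{u} → Prop) (Γ : MGraph.{u}) : Set (Set Γ.E) :=
  {S | ∃ X, P X ∧ ∃ φ : Emb X Γ, Set.range φ.fE = S}

/-- `C` is the family of circuits of a matroid on `E`, in the sense of (C1) and (C2). -/
def IsCircuitFamily {E : Type u} (C : Set (Set E)) : Prop :=
  (∀ A ∈ C, ∀ B ∈ C, ¬ A ⊂ B) ∧
    ∀ A ∈ C, ∀ B ∈ C, A ≠ B → ∀ e ∈ A ∩ B, ∃ D ∈ C, D ⊆ (A ∪ B) \ {e}

/-- `P` is a generalized matroidal family of graphs. -/
def IsGenMatroidal (P : MGraph.{u} → Prop) : Prop :=
  (∃ X, P X) ∧ ∀ Γ : MGraph.{u}, IsCircuitFamily (copies P Γ)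

open Classical in
/-- The graph obtained from `X` by subdividing the edge `e` with ends `a`, `b`: the new vertex is
`none`, the edge `some e` now joins `a` to `none`, and the new edge `none` joins `none` to `b`. -/
noncomputable abbrev subdivide (X : MGraph.{u}) (e : X.E) (a b : X.V) : MGraph.{u} where
  V := Option X.V
  E := Option X.E
  ends := fun f => match f with
    | none => s(none, some b)
    | some f => if f = e then s(some a, none) else (X.ends f).map some

/-- `Y` arises from `X` by subdividing one edge (up to isomorphism). -/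
def SubdivStep (X Y : MGraph.{u}) : Prop :=
  ∃ (e : X.E) (a b : X.V), X.ends e = s(a, b) ∧ Isomorphic (subdivide X e a b) Y

/-- `Y` arises from `X` by a finite, possibly empty, sequence of subdivisions (up to
isomorphism). -/
def Arises (X Y : MGraph.{u}) : Prop :=
  Relation.ReflTransGen (fun A B => Isomorphic A B ∨ SubdivStep A B) X Y

/-- Two graphs are homeomorphic if both arise from a common graph by subdivisions. -/
def Homeomorphic (X Y : MGraph.{u}) : Prop := ∃ Z, Arises Z X ∧ Arises Z Y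

/-- `X` has no isolated vertex. -/
def NoIsolated (X : MGraph.{u}) : Prop := ∀ v : X.V, ∃ e : X.E, v ∈ X.ends e

/-! ### Cycle space and nullity -/

abbrev F2 := ZMod 2

section theory

variable {Γ : MGraph.{u}}

noncomputable def bdE (Γ : MGraph.{u}) (e : Γ.E) : Γ.V →₀ F2 :=
  Sym2.lift ⟨fun a b => Finsupp.single a 1 + Finsupp.single b 1, fun _ _ => add_comm _ _⟩
    (Γ.ends e)

theorem bdE_eq {e : Γ.E} {a b : Γ.V} (h : Γ.ends e = s(a, b)) :
    bdE Γ e = Finsupp.single a 1 + Finsupp.single b 1 := by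
  rw [bdE, h]
  rfl

theorem bdE_apply_eq_zero {e : Γ.E} {v : Γ.V} (h : v ∉ Γ.ends e) : bdE Γ e v = 0 := by
  classical
  induction hs : Γ.ends e using Sym2.ind with
  | _ a b =>
    rw [bdE_eq hs]
    rw [hs, Sym2.mem_iff, not_or] at h
    simp [Ne.symm h.1, Ne.symm h.2]

noncomputable def bd (Γ : MGraph.{u}) : (Γ.E →₀ F2) →ₗ[F2] (Γ.V →₀ F2) :=
  Finsupp.linearCombination F2 (bdE Γ)

theorem bd_apply (x : Γ.E →₀ F2) (v : Γ.V) : bd Γ x v = ∑ e ∈ x.support, x e * bdE Γ e v := by
  rw [bd, Finsupp.linearCombination_apply, Finsupp.sum, Finsupp.finsetSum_apply]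
  simp

theorem bd_apply_eq_zero {x : Γ.E →₀ F2} {v : Γ.V} (h : ∀ e, x e ≠ 0 → v ∉ Γ.ends e) :
    bd Γ x v = 0 := by
  rw [bd_apply]
  apply Finset.sum_eq_zero
  intro e he
  rw [bdE_apply_eq_zero (h e (Finsupp.mem_support_iff.mp he)), mul_zero]

/-- Elements of the cycle space supported in `A`. -/
noncomputable def Z (Γ : MGraph.{u}) (A : Set Γ.E) : Submodule F2 (Γ.E →₀ F2) :=
  LinearMap.ker (bd Γ) ⊓ Finsupp.supported F2 F2 A

theorem mem_Z {A : Set Γ.E} {x : Γ.E →₀ F2} : x ∈ Z Γ A ↔ bd Γ x = 0 ∧ ∀ e ∉ A, x e = 0 := by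
  rw [Z, Submodule.mem_inf, LinearMap.mem_ker, Finsupp.mem_supported']

theorem Z_mono {A B : Set Γ.E} (h : A ⊆ B) : Z Γ A ≤ Z Γ B := by
  intro x hx
  rw [mem_Z] at *
  exact ⟨hx.1, fun e he => hx.2 e (fun h' => he (h h'))⟩

theorem Z_fin {A : Set Γ.E} (hA : A.Finite) : Module.Finite F2 (Z Γ A) := by
  have : Finite A := hA
  have h1 : Module.Finite F2 (Finsupp.supported F2 F2 A) :=
    Module.Finite.equiv (Finsupp.supportedEquivFinsupp (R := F2) (M := F2) A).symm
  exact Submodule.finiteDimensional_of_le inf_le_right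

/-- The nullity of a finite edge set. -/
noncomputable def null (Γ : MGraph.{u}) (A : Set Γ.E) : ℕ := Module.finrank F2 (Z Γ A)

def Bridgeless (Γ : MGraph.{u}) (A : Set Γ.E) : Prop := ∀ e ∈ A, ∃ x ∈ Z Γ A, x e ≠ 0

def verts (Γ : MGraph.{u}) (A : Set Γ.E) : Set Γ.V := {v | ∃ e ∈ A, v ∈ Γ.ends e}

theorem verts_mono {A B : Set Γ.E} (h : A ⊆ B) : verts Γ A ⊆ verts Γ B := by
  rintro v ⟨e, he, hv⟩
  exact ⟨e, h he, hv⟩

theorem verts_union (A B : Set Γ.E) : verts Γ (A ∪ B) = verts Γ A ∪ verts Γ B := by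
  ext v
  simp only [verts, Set.mem_union, Set.mem_ofPred_eq]
  constructor
  · rintro ⟨e, he | he, hv⟩
    · exact Or.inl ⟨e, he, hv⟩
    · exact Or.inr ⟨e, he, hv⟩
  · rintro (⟨e, he, hv⟩ | ⟨e, he, hv⟩)
    · exact ⟨e, Or.inl he, hv⟩
    · exact ⟨e, Or.inr he, hv⟩

theorem disjoint_of_verts {A B : Set Γ.E} (h : Disjoint (verts Γ A) (verts Γ B)) :
    Disjoint A B := by
  rw [Set.disjoint_left] at *
  intro e hA hB
  induction hs : Γ.ends e using Sym2.ind with
  | _ a b =>
    exact h (a := a) ⟨e, hA, by rw [hs]; exact Sym2.mem_mk_left a b⟩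
      ⟨e, hB, by rw [hs]; exact Sym2.mem_mk_left a b⟩

open Classical in
theorem filt_pos {E : Type u} {A : Set E} (x : E →₀ F2) {e : E} (h : e ∈ A) :
    x.filter (· ∈ A) e = x e := Finsupp.filter_apply_pos _ _ h

open Classical in
theorem filt_neg {E : Type u} {A : Set E} (x : E →₀ F2) {e : E} (h : e ∉ A) :
    x.filter (· ∈ A) e = 0 := Finsupp.filter_apply_neg _ _ h

open Classical in
theorem filter_mem_Z {A B : Set Γ.E} (h : Disjoint (verts Γ A) (verts Γ B)) {x : Γ.E →₀ F2}
    (hx : x ∈ Z Γ (A ∪ B)) : x.filter (· ∈ A) ∈ Z Γ A := by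
  rw [mem_Z] at *
  refine ⟨?_, fun e he => by rw [Finsupp.filter_apply_neg _ _ he]⟩
  set y := x.filter (· ∈ A) with hy
  set z := x.filter (fun e => ¬ e ∈ A) with hz
  have hsum : y + z = x := Finsupp.filter_add_filter_not x (· ∈ A)
  have hb : bd Γ y + bd Γ z = 0 := by rw [← map_add, hsum, hx.1]
  have hz0 : ∀ v ∈ verts Γ A, bd Γ z v = 0 := by
    intro v hv
    apply bd_apply_eq_zero
    intro e he hve
    have heA : e ∉ A := by
      intro h'
      apply he
      rw [hz, Finsupp.filter_apply_neg _ _ (by simpa using h')]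
    have hxe : x e ≠ 0 := by
      rw [hz, Finsupp.filter_apply_pos (fun e => ¬ e ∈ A) _ heA] at he
      exact he
    have heB : e ∈ B := by
      by_contra hB
      exact hxe (hx.2 e (by simp [heA, hB]))
    exact Set.disjoint_left.mp h hv ⟨e, heB, hve⟩
  ext v
  by_cases hv : v ∈ verts Γ A
  · have h1 := congrFun (congrArg DFunLike.coe hb) v
    rw [Finsupp.add_apply, hz0 v hv, add_zero] at h1
    exact h1
  · rw [bd_apply_eq_zero]
    · rfl
    · intro e he hve
      have heA : e ∈ A := by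
        by_contra h'
        exact he (Finsupp.filter_apply_neg _ _ h')
      exact hv ⟨e, heA, hve⟩

theorem null_union {A B : Set Γ.E} (hA : A.Finite) (hB : B.Finite)
    (h : Disjoint (verts Γ A) (verts Γ B)) : null Γ (A ∪ B) = null Γ A + null Γ B := by
  classical
  have := Z_fin (Γ := Γ) hA
  have := Z_fin (Γ := Γ) hB
  have hAB := disjoint_of_verts h
  have h1 : Z Γ (A ∪ B) = Z Γ A ⊔ Z Γ B := by
    apply le_antisymm
    · intro x hx
      rw [Submodule.mem_sup]
      refine ⟨x.filter (· ∈ A), filter_mem_Z h hx, x.filter (fun e => ¬ e ∈ A), ?_,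
        Finsupp.filter_add_filter_not x (· ∈ A)⟩
      have h2 : x.filter (fun e => ¬ e ∈ A) = x.filter (· ∈ B) := by
        ext e
        by_cases heA : e ∈ A
        · have heB : e ∉ B := Set.disjoint_left.mp hAB heA
          rw [Finsupp.filter_apply_neg _ _ (by simpa using heA),
            Finsupp.filter_apply_neg _ _ heB]
        · by_cases heB : e ∈ B
          · rw [Finsupp.filter_apply_pos (fun e => ¬ e ∈ A) _ heA,
              Finsupp.filter_apply_pos _ _ heB]
          · rw [Finsupp.filter_apply_pos (fun e => ¬ e ∈ A) _ heA,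
              Finsupp.filter_apply_neg _ _ heB]
            exact (mem_Z.mp hx).2 e (by simp [heA, heB])
      rw [h2]
      apply filter_mem_Z h.symm
      rwa [Set.union_comm]
    · exact sup_le (Z_mono Set.subset_union_left) (Z_mono Set.subset_union_right)
  have h2 : Z Γ A ⊓ Z Γ B = ⊥ := by
    rw [eq_bot_iff]
    intro x hx
    rw [Submodule.mem_inf, mem_Z, mem_Z] at hx
    rw [Submodule.mem_bot]
    ext e
    by_cases heA : e ∈ A
    · exact hx.2.2 e (Set.disjoint_left.mp hAB heA)
    · exact hx.1.2 e heA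
  have h3 := Submodule.finrank_sup_add_finrank_inf_eq (Z Γ A) (Z Γ B)
  rw [h2, finrank_bot, add_zero, ← h1] at h3
  exact h3

theorem null_lt {A B : Set Γ.E} (hB : B.Finite) (h : A ⊆ B) {x : Γ.E →₀ F2} (hx : x ∈ Z Γ B)
    {e : Γ.E} (he : e ∉ A) (hxe : x e ≠ 0) : null Γ A < null Γ B := by
  have := Z_fin (Γ := Γ) hB
  apply Submodule.finrank_lt_finrank_of_lt
  refine lt_of_le_of_ne (Z_mono h) ?_
  intro heq
  rw [← heq, mem_Z] at hx
  exact hxe (hx.2 e he)

theorem null_diff {A : Set Γ.E} (hA : A.Finite) (e : Γ.E) : null Γ A ≤ null Γ (A \ {e}) + 1 := by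
  have := Z_fin (Γ := Γ) hA
  have := Z_fin (Γ := Γ) (hA.subset (Set.sdiff_subset (t := {e})))
  let f : Z Γ A →ₗ[F2] F2 := (Finsupp.lapply e).comp (Z Γ A).subtype
  have h1 := LinearMap.finrank_range_add_finrank_ker (K := F2) (V := Z Γ A) f
  have h2 : Module.finrank F2 (LinearMap.range f) ≤ 1 := by
    have := Submodule.finrank_le (LinearMap.range f)
    simpa using this
  have h3 : Module.finrank F2 (LinearMap.ker f) ≤ Module.finrank F2 (Z Γ (A \ {e})) := by
    have h4 : ∀ x : LinearMap.ker f, ((x : Z Γ A) : Γ.E →₀ F2) ∈ Z Γ (A \ {e}) := by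
      intro x
      have h5 := (mem_Z.mp x.1.2)
      rw [mem_Z]
      refine ⟨h5.1, fun e' he' => ?_⟩
      by_cases h6 : e' = e
      · subst h6
        exact LinearMap.mem_ker.mp x.2
      · exact h5.2 e' (fun h7 => he' ⟨h7, h6⟩)
    let g : LinearMap.ker f →ₗ[F2] Z Γ (A \ {e}) :=
      { toFun := fun x => ⟨x.1.1, h4 x⟩
        map_add' := fun _ _ => rfl
        map_smul' := fun _ _ => rfl }
    apply LinearMap.finrank_le_finrank_of_injective (f := g)
    intro x y hxy
    apply Subtype.ext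
    apply Subtype.ext
    exact congrArg (fun z : Z Γ (A \ {e}) => (z : Γ.E →₀ F2)) hxy
  unfold null
  omega

theorem exists_core {M : ℕ} {A : Set Γ.E} (hA : A.Finite) (h : M ≤ null Γ A) :
    ∃ B ⊆ A, B.Finite ∧ null Γ B = M ∧ Bridgeless Γ B := by
  -- a minimal subset of nullity at least `M`
  have hfin : {B : Set Γ.E | B ⊆ A ∧ M ≤ null Γ B}.Finite :=
    hA.finite_subsets.subset (fun B hB => hB.1)
  obtain ⟨B, hBmem, hBmin⟩ := hfin.exists_minimal ⟨A, Set.Subset.rfl, h⟩
  obtain ⟨hBA, hBM⟩ := hBmem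
  have hBfin : B.Finite := hA.subset hBA
  have hdel : ∀ e ∈ B, null Γ (B \ {e}) < M := by
    intro e he
    by_contra hcon
    push Not at hcon
    have h1 := hBmin (y := B \ {e}) ⟨Set.sdiff_subset.trans hBA, hcon⟩ Set.sdiff_subset
    exact (h1 he).2 rfl
  refine ⟨B, hBA, hBfin, ?_, ?_⟩
  · by_contra hne
    have hlt : M < null Γ B := lt_of_le_of_ne hBM (Ne.symm hne)
    have hne' : B.Nonempty := by
      by_contra hemp
      rw [Set.not_nonempty_iff_eq_empty] at hemp
      have : null Γ B = 0 := by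
        rw [hemp]
        have : Z Γ (∅ : Set Γ.E) = ⊥ := by
          rw [eq_bot_iff]
          intro x hx
          rw [Submodule.mem_bot]
          ext e
          exact (mem_Z.mp hx).2 e (Set.notMem_empty e)
        rw [null, this, finrank_bot]
      omega
    obtain ⟨e, he⟩ := hne'
    have h1 := hdel e he
    have h2 := null_diff hBfin e
    omega
  · intro e he
    by_contra hcon
    push Not at hcon
    have h1 := hdel e he
    have h2 : Z Γ B ≤ Z Γ (B \ {e}) := by
      intro x hx
      rw [mem_Z] at *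
      refine ⟨hx.1, fun e' he' => ?_⟩
      by_cases h6 : e' = e
      · rw [h6]; exact hcon x (mem_Z.mpr hx)
      · exact hx.2 e' (fun h7 => he' ⟨h7, h6⟩)
    have := Z_fin (Γ := Γ) (hBfin.subset (Set.sdiff_subset (t := {e})))
    have h3 : null Γ B ≤ null Γ (B \ {e}) := Submodule.finrank_mono h2
    omega

/-- `T` is (the edge set of) a cycle: the cycle space of `T` has exactly one nonzero element, and
that element has full support. -/
def IsCirc (Γ : MGraph.{u}) (T : Set Γ.E) : Prop :=
  T.Nonempty ∧ ∃ x ∈ Z Γ T, (∀ e ∈ T, x e = 1) ∧ ∀ y ∈ Z Γ T, y = 0 ∨ y = x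

theorem IsCirc.null {T : Set Γ.E} (h : IsCirc Γ T) : null Γ T = 1 := by
  obtain ⟨⟨e, he⟩, x, hx, hx1, huniq⟩ := h
  apply (finrank_eq_one_iff' (K := F2) (V := Z Γ T)).mpr
  refine ⟨⟨x, hx⟩, ?_, ?_⟩
  · intro h0
    have h1 : x = 0 := congrArg (fun z : Z Γ T => (z : Γ.E →₀ F2)) h0
    have := hx1 e he
    rw [h1] at this
    simp at this
  · rintro ⟨y, hy⟩
    rcases huniq y hy with h | h
    · exact ⟨0, by apply Subtype.ext; simp [h]⟩
    · exact ⟨1, by apply Subtype.ext; simp [h]⟩

theorem IsCirc.bridgeless {T : Set Γ.E} (h : IsCirc Γ T) : Bridgeless Γ T := by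
  obtain ⟨-, x, hx, hx1, -⟩ := h
  intro e he
  exact ⟨x, hx, by rw [hx1 e he]; exact one_ne_zero⟩

theorem Bridgeless.union {A B : Set Γ.E} (hA : Bridgeless Γ A) (hB : Bridgeless Γ B) :
    Bridgeless Γ (A ∪ B) := by
  rintro e (he | he)
  · obtain ⟨x, hx, hxe⟩ := hA e he
    exact ⟨x, Z_mono Set.subset_union_left hx, hxe⟩
  · obtain ⟨x, hx, hxe⟩ := hB e he
    exact ⟨x, Z_mono Set.subset_union_right hx, hxe⟩

/-- A cycle contained in a vertex-disjoint union and meeting the first part lies in it. -/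
theorem IsCirc.subset_of_inter {T A B : Set Γ.E} (hT : IsCirc Γ T) (hTAB : T ⊆ A ∪ B)
    (h : Disjoint (verts Γ A) (verts Γ B)) (hne : ∃ e ∈ T, e ∈ A) : T ⊆ A := by
  obtain ⟨-, x, hx, hx1, huniq⟩ := hT
  obtain ⟨g, hgT, hgA⟩ := hne
  have hd : Disjoint (verts Γ (T ∩ A)) (verts Γ (T ∩ B)) :=
    h.mono (verts_mono Set.inter_subset_right) (verts_mono Set.inter_subset_right)
  have hx' : x ∈ Z Γ (T ∩ A ∪ T ∩ B) := by
    have : T ∩ A ∪ T ∩ B = T := by
      rw [← Set.inter_union_distrib_left]
      exact Set.inter_eq_left.mpr hTAB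
    rw [this]
    exact hx
  have h1 := filter_mem_Z hd hx'
  rcases huniq _ (Z_mono Set.inter_subset_left h1) with h2 | h2
  · exfalso
    have h3 := congrFun (congrArg DFunLike.coe h2) g
    rw [filt_pos x (show g ∈ T ∩ A from ⟨hgT, hgA⟩), hx1 g hgT] at h3
    simp at h3
  · intro e he
    by_contra heA
    have h3 := congrFun (congrArg DFunLike.coe h2) e
    rw [filt_neg x (fun h' : e ∈ T ∩ A => heA h'.2), hx1 e he] at h3
    simp at h3

theorem IsCirc.eq_of_subset {T T' : Set Γ.E} (hT : IsCirc Γ T) (hT' : IsCirc Γ T')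
    (h : T ⊆ T') : T = T' := by
  apply Set.Subset.antisymm h
  obtain ⟨⟨g, hg⟩, x, hx, hx1, -⟩ := hT
  obtain ⟨-, x', hx', hx1', huniq⟩ := hT'
  rcases huniq x (Z_mono h hx) with h2 | h2
  · exfalso
    have := hx1 g hg
    rw [h2] at this
    simp at this
  · intro e he
    by_contra heT
    have h3 := hx1' e he
    rw [← h2, (mem_Z.mp hx).2 e heT] at h3
    simp at h3

/-- The edge set `S` splits into a finite bridgeless part `A` of nullity `N` and, for every
`l > N`, a cycle `T l` of length `l`, all these parts being pairwise vertex-disjoint. -/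
structure Data (Γ : MGraph.{u}) (S : Set Γ.E) (N : ℕ) (A : Set Γ.E) (T : ℕ → Set Γ.E) :
    Prop where
  finA : A.Finite
  brA : Bridgeless Γ A
  nullA : null Γ A = N
  circ : ∀ l, N < l → IsCirc Γ (T l)
  card : ∀ l, N < l → (T l).ncard = l
  disjA : ∀ l, N < l → Disjoint (verts Γ A) (verts Γ (T l))
  disjT : ∀ l, N < l → ∀ l', N < l' → l ≠ l' → Disjoint (verts Γ (T l)) (verts Γ (T l'))
  cover : ∀ e, e ∈ S ↔ e ∈ A ∨ ∃ l, N < l ∧ e ∈ T l

theorem Data.finT {S : Set Γ.E} {N : ℕ} {A : Set Γ.E} {T : ℕ → Set Γ.E} (h : Data Γ S N A T)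
    {l : ℕ} (hl : N < l) : (T l).Finite := by
  apply Set.finite_of_ncard_pos
  rw [h.card l hl]
  omega

theorem Data.absorb_one {S : Set Γ.E} {N : ℕ} {A : Set Γ.E} {T : ℕ → Set Γ.E}
    (h : Data Γ S N A T) : Data Γ S (N + 1) (A ∪ T (N + 1)) T where
  finA := h.finA.union (h.finT (Nat.lt_succ_self N))
  brA := h.brA.union (h.circ _ (Nat.lt_succ_self N)).bridgeless
  nullA := by
    rw [null_union h.finA (h.finT (Nat.lt_succ_self N)) (h.disjA _ (Nat.lt_succ_self N)),
      h.nullA, (h.circ _ (Nat.lt_succ_self N)).null]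
  circ := fun l hl => h.circ l (by omega)
  card := fun l hl => h.card l (by omega)
  disjA := fun l hl => by
    rw [verts_union]
    exact Disjoint.sup_left (h.disjA l (by omega))
      (h.disjT _ (Nat.lt_succ_self N) l (by omega) (by omega))
  disjT := fun l hl l' hl' hne => h.disjT l (by omega) l' (by omega) hne
  cover := fun e => by
    rw [h.cover e]
    constructor
    · rintro (h1 | ⟨l, hl, he⟩)
      · exact Or.inl (Or.inl h1)
      · by_cases h2 : l = N + 1
        · subst h2
          exact Or.inl (Or.inr he)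
        · exact Or.inr ⟨l, by omega, he⟩
    · rintro ((h1 | h1) | ⟨l, hl, he⟩)
      · exact Or.inl h1
      · exact Or.inr ⟨N + 1, Nat.lt_succ_self N, h1⟩
      · exact Or.inr ⟨l, by omega, he⟩

theorem Data.absorb {S : Set Γ.E} {N : ℕ} {A : Set Γ.E} {T : ℕ → Set Γ.E}
    (h : Data Γ S N A T) {M : ℕ} (hM : N ≤ M) :
    ∃ A', A ⊆ A' ∧ Data Γ S M A' T ∧ ∀ l, N < l → l ≤ M → T l ⊆ A' := by
  induction M, hM using Nat.le_induction with
  | base => exact ⟨A, Set.Subset.rfl, h, fun l h1 h2 => by omega⟩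
  | succ M hM ih =>
    obtain ⟨A', hA', hD, hT⟩ := ih
    refine ⟨A' ∪ T (M + 1), hA'.trans Set.subset_union_left, hD.absorb_one, ?_⟩
    intro l h1 h2
    by_cases h3 : l = M + 1
    · rw [h3]; exact Set.subset_union_right
    · exact (hT l h1 (by omega)).trans Set.subset_union_left

/-- Every edge of `S` belongs to the finite part after absorbing enough cycles. -/
theorem Data.mem_absorb {S : Set Γ.E} {N : ℕ} {A : Set Γ.E} {T : ℕ → Set Γ.E}
    (h : Data Γ S N A T) {e : Γ.E} (he : e ∈ S) :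
    ∃ M₀, N ≤ M₀ ∧ ∀ M, M₀ ≤ M → ∀ A', A ⊆ A' → (∀ l, N < l → l ≤ M → T l ⊆ A') → e ∈ A' := by
  rcases (h.cover e).mp he with h1 | ⟨l, hl, hel⟩
  · exact ⟨N, le_rfl, fun M _ A' hA _ => hA h1⟩
  · exact ⟨l, hl.le, fun M hM A' _ hT => hT l hl hM hel⟩

/-- A cycle contained in `S` and longer than the finite part is one of the cycles `T l`. -/
theorem Data.circ_eq {S : Set Γ.E} {N : ℕ} {A : Set Γ.E} {T : ℕ → Set Γ.E}
    (h : Data Γ S N A T) {C : Set Γ.E} (hC : IsCirc Γ C) (hCS : C ⊆ S) (hlen : A.ncard < C.ncard) :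
    ∃ l, N < l ∧ C = T l := by
  obtain ⟨g, hg⟩ := hC.1
  rcases (h.cover g).mp (hCS hg) with h1 | ⟨l, hl, hgl⟩
  · exfalso
    have h2 : C ⊆ A := by
      refine hC.subset_of_inter (B := {e | ∃ l, N < l ∧ e ∈ T l}) ?_ ?_ ⟨g, hg, h1⟩
      · intro e he
        exact (h.cover e).mp (hCS he)
      · rw [Set.disjoint_left]
        rintro v hv ⟨e, ⟨l, hl, hel⟩, hve⟩
        exact Set.disjoint_left.mp (h.disjA l hl) hv ⟨e, hel, hve⟩
    have := Set.ncard_le_ncard h2 h.finA
    omega
  · refine ⟨l, hl, hC.eq_of_subset (h.circ l hl) ?_⟩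
    refine hC.subset_of_inter (B := A ∪ {e | ∃ l', N < l' ∧ l' ≠ l ∧ e ∈ T l'}) ?_ ?_ ⟨g, hg, hgl⟩
    · intro e he
      rcases (h.cover e).mp (hCS he) with h3 | ⟨l', hl', hel'⟩
      · exact Or.inr (Or.inl h3)
      · by_cases h4 : l' = l
        · subst h4; exact Or.inl hel'
        · exact Or.inr (Or.inr ⟨l', hl', h4, hel'⟩)
    · rw [Set.disjoint_left]
      rintro v hv ⟨e, (heA | ⟨l', hl', hne, hel'⟩), hve⟩
      · exact Set.disjoint_left.mp (h.disjA l hl) ⟨e, heA, hve⟩ hv
      · exact Set.disjoint_left.mp (h.disjT l hl l' hl' (Ne.symm hne)) hv ⟨e, hel', hve⟩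

theorem C1 {S S' : Set Γ.E} {N N' : ℕ} {A A' : Set Γ.E} {T T' : ℕ → Set Γ.E}
    (h : Data Γ S N A T) (h' : Data Γ S' N' A' T') (hSS : S ⊆ S') : S = S' := by
  by_contra hne
  obtain ⟨e, heS', heS⟩ : ∃ e, e ∈ S' ∧ e ∉ S := by
    by_contra hcon
    push Not at hcon
    exact hne (Set.Subset.antisymm hSS hcon)
  set M := N + N' + A'.ncard with hM
  obtain ⟨B, hAB, hB, hTB⟩ := h.absorb (M := M) (by omega)
  obtain ⟨B', hAB', hB', hTB'⟩ := h'.absorb (M := M) (by omega)
  have hTT : ∀ l, M < l → T l = T' l := by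
    intro l hl
    have h1 : T l ⊆ S' := by
      intro g hg
      exact hSS ((hB.cover g).mpr (Or.inr ⟨l, hl, hg⟩))
    obtain ⟨l', hl', heq⟩ := h'.circ_eq (hB.circ l hl) h1 (by rw [hB.card l hl]; omega)
    have h2 := h'.card l' hl'
    rw [← heq, hB.card l hl] at h2
    rw [heq, h2]
  have hsub : B ⊆ B' := by
    intro g hg
    have hgS' : g ∈ S' := hSS ((hB.cover g).mpr (Or.inl hg))
    rcases (hB'.cover g).mp hgS' with h1 | ⟨l, hl, hgl⟩
    · exact h1
    · exfalso
      rw [← hTT l hl] at hgl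
      exact Set.disjoint_left.mp (disjoint_of_verts (hB.disjA l hl)) hg hgl
  have heB' : e ∈ B' := by
    rcases (hB'.cover e).mp heS' with h1 | ⟨l, hl, hgl⟩
    · exact h1
    · exfalso
      rw [← hTT l hl] at hgl
      exact heS ((hB.cover e).mpr (Or.inr ⟨l, hl, hgl⟩))
  have heB : e ∉ B := fun h1 => heS ((hB.cover e).mpr (Or.inl h1))
  obtain ⟨x, hx, hxe⟩ := hB'.brA e heB'
  have := null_lt hB'.finA hsub hx heB hxe
  rw [hB.nullA, hB'.nullA] at this
  omega

theorem verts_finite {A : Set Γ.E} (hA : A.Finite) : (verts Γ A).Finite := by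
  have : verts Γ A = ⋃ e ∈ A, {v | v ∈ Γ.ends e} := by
    ext v
    simp [verts]
  rw [this]
  apply hA.biUnion
  intro e _
  induction hs : Γ.ends e using Sym2.ind with
  | _ a b =>
    have h1 : {v | v ∈ s(a, b)} = {a, b} := by
      ext v; simp
    rw [h1]
    exact Set.toFinite _

theorem C2 {S S' : Set Γ.E} {N N' : ℕ} {A A' : Set Γ.E} {T T' : ℕ → Set Γ.E}
    (h : Data Γ S N A T) (h' : Data Γ S' N' A' T') (hne : S ≠ S') {e : Γ.E} (he : e ∈ S) :
    ∃ (S'' : Set Γ.E) (M : ℕ) (B : Set Γ.E), Data Γ S'' M B T ∧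
      S'' ⊆ (S ∪ S') \ {e} := by
  classical
  obtain ⟨f, hfS', hfS⟩ : ∃ f, f ∈ S' ∧ f ∉ S := by
    by_contra hcon
    push Not at hcon
    exact hne (C1 h' h hcon).symm
  -- a cycle-space element of `S'` through `f`
  obtain ⟨z, hz0, hzS, hzf⟩ : ∃ z : Γ.E →₀ F2, bd Γ z = 0 ∧ (∀ g, z g ≠ 0 → g ∈ S') ∧ z f ≠ 0 := by
    rcases (h'.cover f).mp hfS' with h1 | ⟨l, hl, hfl⟩
    · obtain ⟨z, hz, hzf⟩ := h'.brA f h1
      refine ⟨z, (mem_Z.mp hz).1, fun g hg => ?_, hzf⟩
      by_contra hcon
      exact hg ((mem_Z.mp hz).2 g (fun h2 => hcon ((h'.cover g).mpr (Or.inl h2))))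
    · obtain ⟨z, hz, hzf⟩ := (h'.circ l hl).bridgeless f hfl
      refine ⟨z, (mem_Z.mp hz).1, fun g hg => ?_, hzf⟩
      by_contra hcon
      exact hg ((mem_Z.mp hz).2 g (fun h2 => hcon ((h'.cover g).mpr (Or.inr ⟨l, hl, h2⟩))))
  set K : Set Γ.E := (z.support : Set Γ.E) with hK
  have hKfin : K.Finite := z.support.finite_toSet
  -- only finitely many of the cycles `T l` touch `K`
  have hbad : {l | N < l ∧ ¬ Disjoint (verts Γ K) (verts Γ (T l))}.Finite := by
    have h1 : {l | N < l ∧ ¬ Disjoint (verts Γ K) (verts Γ (T l))} ⊆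
        ⋃ v ∈ verts Γ K, {l | N < l ∧ v ∈ verts Γ (T l)} := by
      rintro l ⟨hl, hd⟩
      rw [Set.not_disjoint_iff] at hd
      obtain ⟨v, hv, hvl⟩ := hd
      simp only [Set.mem_iUnion]
      exact ⟨v, hv, hl, hvl⟩
    refine Set.Finite.subset ((verts_finite hKfin).biUnion ?_) h1
    intro v _
    apply Set.Subsingleton.finite
    rintro l ⟨hl, hvl⟩ l' ⟨hl', hvl'⟩
    by_contra hll
    exact Set.disjoint_left.mp (h.disjT l hl l' hl' hll) hvl hvl'
  obtain ⟨M₁, hM₁⟩ := hbad.bddAbove
  obtain ⟨M₀, hM₀, hmem⟩ := h.mem_absorb he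
  set M := max M₀ M₁ with hM
  obtain ⟨A₁, hAA₁, hA₁, hTA₁⟩ := h.absorb (M := M) (hM₀.trans (le_max_left _ _))
  have heA₁ : e ∈ A₁ := hmem M (le_max_left _ _) A₁ hAA₁ hTA₁
  have hKdisj : ∀ l, M < l → Disjoint (verts Γ K) (verts Γ (T l)) := by
    intro l hl
    by_contra hcon
    have hNl : N < l := lt_of_le_of_lt (hM₀.trans (le_max_left _ _)) hl
    have h1 : l ≤ M₁ := hM₁ ⟨hNl, hcon⟩
    have h2 : M₁ ≤ M := le_max_right _ _
    omega
  have hGfin : (A₁ ∪ K).Finite := hA₁.finA.union hKfin
  have hfA₁ : f ∉ A₁ := fun h1 => hfS ((hA₁.cover f).mpr (Or.inl h1))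
  have hzZ : z ∈ Z Γ (A₁ ∪ K) := by
    rw [mem_Z]
    refine ⟨hz0, fun g hg => ?_⟩
    by_contra hcon
    exact hg (Or.inr (Finsupp.mem_support_iff.mpr hcon))
  have h1 := null_lt hGfin Set.subset_union_left hzZ hfA₁ hzf
  rw [hA₁.nullA] at h1
  have h2 := null_diff hGfin e
  obtain ⟨B, hBsub, hBfin, hBnull, hBbr⟩ := exists_core (M := M) (A := (A₁ ∪ K) \ {e})
    (hGfin.subset Set.sdiff_subset) (by omega)
  refine ⟨B ∪ {g | ∃ l, M < l ∧ g ∈ T l}, M, B, ?_, ?_⟩
  · exact
      { finA := hBfin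
        brA := hBbr
        nullA := hBnull
        circ := hA₁.circ
        card := hA₁.card
        disjA := fun l hl => by
          have h3 : verts Γ B ⊆ verts Γ A₁ ∪ verts Γ K := by
            rw [← verts_union]
            exact verts_mono (hBsub.trans Set.sdiff_subset)
          exact Set.disjoint_of_subset_left h3
            (Disjoint.sup_left (hA₁.disjA l hl) (hKdisj l hl))
        disjT := hA₁.disjT
        cover := fun g => Iff.rfl }
  · rintro g (hg | ⟨l, hl, hgl⟩)
    · obtain ⟨h3 | h3, h4⟩ := hBsub hg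
      · exact ⟨Or.inl ((hA₁.cover g).mpr (Or.inl h3)), h4⟩
      · exact ⟨Or.inr (hzS g (Finsupp.mem_support_iff.mp h3)), h4⟩
    · refine ⟨Or.inl ((hA₁.cover g).mpr (Or.inr ⟨l, hl, hgl⟩)), ?_⟩
      intro h5
      rw [Set.mem_singleton_iff] at h5
      rw [h5] at hgl
      exact Set.disjoint_left.mp (disjoint_of_verts (hA₁.disjA l hl)) heA₁ hgl

end theory

/-! ### Transfer of the structure between graphs -/

/-- A comparison of the cycle spaces of `X` and `Y`; `ρ g f` means that the edge `g` of `Y` lies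
over the edge `f` of `X`. -/
structure Trans (X Y : MGraph.{u}) where
  ρ : Y.E → X.E → Prop
  Θ : (X.E →₀ F2) →ₗ[F2] (Y.E →₀ F2)
  ex : ∀ f, ∃ g, ρ g f
  uniq : ∀ g f f', ρ g f → ρ g f' → f = f'
  val : ∀ x g f, ρ g f → Θ x g = x f
  off : ∀ x g, (∀ f, ¬ ρ g f) → Θ x g = 0
  ker : ∀ x, bd X x = 0 ↔ bd Y (Θ x) = 0
  surj : ∀ y, bd Y y = 0 → (∀ g, (∀ f, ¬ ρ g f) → y g = 0) → ∃ x, Θ x = y
  fin : ∀ f, {g | ρ g f}.Finite
  disj : ∀ A B : Set X.E, Disjoint (verts Y {g | ∃ f ∈ A, ρ g f}) (verts Y {g | ∃ f ∈ B, ρ g f}) ↔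
    Disjoint (verts X A) (verts X B)

namespace Trans

variable {X Y : MGraph.{u}} (t : Trans X Y)

/-- The edges lying over an edge of `A`. -/
def U (A : Set X.E) : Set Y.E := {g | ∃ f ∈ A, t.ρ g f}

theorem inj : Function.Injective t.Θ := by
  intro x y hxy
  ext f
  obtain ⟨g, hg⟩ := t.ex f
  rw [← t.val x g f hg, ← t.val y g f hg, hxy]

theorem Z_U (A : Set X.E) : Z Y (t.U A) = Submodule.map t.Θ (Z X A) := by
  ext y
  rw [Submodule.mem_map]
  constructor
  · intro hy
    rw [mem_Z] at hy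
    obtain ⟨x, rfl⟩ := t.surj y hy.1 (fun g hg => hy.2 g (by
      rintro ⟨f, -, hf⟩
      exact hg f hf))
    refine ⟨x, ?_, rfl⟩
    rw [mem_Z]
    refine ⟨(t.ker x).mpr hy.1, fun f hf => ?_⟩
    obtain ⟨g, hg⟩ := t.ex f
    rw [← t.val x g f hg]
    apply hy.2
    rintro ⟨f', hf', hg'⟩
    rw [t.uniq g f f' hg hg'] at hf
    exact hf hf'
  · rintro ⟨x, hx, rfl⟩
    rw [mem_Z] at *
    refine ⟨(t.ker x).mp hx.1, fun g hg => ?_⟩
    by_cases h : ∃ f, t.ρ g f
    · obtain ⟨f, hf⟩ := h
      rw [t.val x g f hf]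
      apply hx.2
      intro hfA
      exact hg ⟨f, hfA, hf⟩
    · push Not at h
      exact t.off x g h

theorem null_U (A : Set X.E) : null Y (t.U A) = null X A := by
  unfold null
  rw [t.Z_U]
  exact (LinearEquiv.finrank_eq (Submodule.equivMapOfInjective t.Θ t.inj (Z X A))).symm

theorem finite_U {A : Set X.E} : (t.U A).Finite ↔ A.Finite := by
  constructor
  · intro h
    choose g hg using t.ex
    have h1 : g '' A ⊆ t.U A := by
      rintro _ ⟨f, hf, rfl⟩
      exact ⟨f, hf, hg f⟩
    refine Set.Finite.of_finite_image (h.subset h1) ?_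
    intro f _ f' _ hff
    exact t.uniq (g f) f f' (hg f) (by rw [hff]; exact hg f')
  · intro h
    have h1 : t.U A = ⋃ f ∈ A, {g | t.ρ g f} := by
      ext g; simp [U]
    rw [h1]
    exact h.biUnion (fun f _ => t.fin f)

theorem bridgeless_U {A : Set X.E} : Bridgeless Y (t.U A) ↔ Bridgeless X A := by
  unfold Bridgeless
  rw [t.Z_U]
  constructor
  · intro h f hf
    obtain ⟨g, hg⟩ := t.ex f
    obtain ⟨y, hy, hyg⟩ := h g ⟨f, hf, hg⟩
    obtain ⟨x, hx, rfl⟩ := Submodule.mem_map.mp hy
    rw [t.val x g f hg] at hyg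
    exact ⟨x, hx, hyg⟩
  · rintro h g ⟨f, hf, hg⟩
    obtain ⟨x, hx, hxf⟩ := h f hf
    exact ⟨t.Θ x, Submodule.mem_map_of_mem hx, by rwa [t.val x g f hg]⟩

theorem isCirc_U {A : Set X.E} : IsCirc Y (t.U A) ↔ IsCirc X A := by
  unfold IsCirc
  rw [t.Z_U]
  constructor
  · rintro ⟨⟨g, f, hf, hg⟩, y, hy, hy1, huniq⟩
    obtain ⟨x, hx, rfl⟩ := Submodule.mem_map.mp hy
    refine ⟨⟨f, hf⟩, x, hx, ?_, ?_⟩
    · intro f' hf'
      obtain ⟨g', hg'⟩ := t.ex f'
      rw [← t.val x g' f' hg']
      exact hy1 g' ⟨f', hf', hg'⟩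
    · intro z hz
      rcases huniq _ (Submodule.mem_map_of_mem hz) with h | h
      · left
        apply t.inj
        rw [h, map_zero]
      · right
        exact t.inj h
  · rintro ⟨⟨f, hf⟩, x, hx, hx1, huniq⟩
    obtain ⟨g, hg⟩ := t.ex f
    refine ⟨⟨g, f, hf, hg⟩, t.Θ x, Submodule.mem_map_of_mem hx, ?_, ?_⟩
    · rintro g' ⟨f', hf', hg'⟩
      rw [t.val x g' f' hg']
      exact hx1 f' hf'
    · intro y hy
      obtain ⟨z, hz, rfl⟩ := Submodule.mem_map.mp hy
      rcases huniq z hz with h | h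
      · left; rw [h, map_zero]
      · right; rw [h]

theorem mem_U_iff {A : Set X.E} {f : X.E} {g : Y.E} (hg : t.ρ g f) : g ∈ t.U A ↔ f ∈ A := by
  constructor
  · rintro ⟨f', hf', hg'⟩
    rwa [t.uniq g f f' hg hg']
  · intro h
    exact ⟨f, h, hg⟩

/-- The transfer theorem. -/
theorem data_iff {S : Set X.E} {N : ℕ} {A : Set X.E} {T : ℕ → Set X.E}
    (hcard : ∀ l, N < l → (t.U (T l)).ncard = (T l).ncard) :
    Data Y (t.U S) N (t.U A) (fun l => t.U (T l)) ↔ Data X S N A T := by
  constructor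
  · intro h
    exact
      { finA := t.finite_U.mp h.finA
        brA := t.bridgeless_U.mp h.brA
        nullA := by rw [← t.null_U]; exact h.nullA
        circ := fun l hl => t.isCirc_U.mp (h.circ l hl)
        card := fun l hl => by rw [← hcard l hl]; exact h.card l hl
        disjA := fun l hl => (t.disj _ _).mp (h.disjA l hl)
        disjT := fun l hl l' hl' hne => (t.disj _ _).mp (h.disjT l hl l' hl' hne)
        cover := fun f => by
          obtain ⟨g, hg⟩ := t.ex f
          have h1 := h.cover g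
          rw [t.mem_U_iff hg, t.mem_U_iff hg] at h1
          simp only [t.mem_U_iff hg] at h1
          exact h1 }
  · intro h
    exact
      { finA := t.finite_U.mpr h.finA
        brA := t.bridgeless_U.mpr h.brA
        nullA := by rw [t.null_U]; exact h.nullA
        circ := fun l hl => t.isCirc_U.mpr (h.circ l hl)
        card := fun l hl => by rw [hcard l hl]; exact h.card l hl
        disjA := fun l hl => (t.disj _ _).mpr (h.disjA l hl)
        disjT := fun l hl l' hl' hne => (t.disj _ _).mpr (h.disjT l hl l' hl' hne)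
        cover := fun g => by
          by_cases hex : ∃ f, t.ρ g f
          · obtain ⟨f, hg⟩ := hex
            simp only [t.mem_U_iff hg]
            exact h.cover f
          · push Not at hex
            constructor
            · rintro ⟨f, -, hf⟩; exact absurd hf (hex f)
            · rintro (⟨f, -, hf⟩ | ⟨l, -, f, -, hf⟩)
              · exact absurd hf (hex f)
              · exact absurd hf (hex f) }

end Trans

/-- Changing the cycles with index at most `N` changes nothing. -/
theorem Data.congr {Γ : MGraph.{u}} {S : Set Γ.E} {N : ℕ} {A : Set Γ.E} {T T' : ℕ → Set Γ.E}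
    (h : Data Γ S N A T) (hT : ∀ l, N < l → T' l = T l) : Data Γ S N A T' where
  finA := h.finA
  brA := h.brA
  nullA := h.nullA
  circ := fun l hl => by rw [hT l hl]; exact h.circ l hl
  card := fun l hl => by rw [hT l hl]; exact h.card l hl
  disjA := fun l hl => by rw [hT l hl]; exact h.disjA l hl
  disjT := fun l hl l' hl' hne => by rw [hT l hl, hT l' hl']; exact h.disjT l hl l' hl' hne
  cover := fun e => by
    rw [h.cover e]
    constructor
    · rintro (h1 | ⟨l, hl, he⟩)
      · exact Or.inl h1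
      · exact Or.inr ⟨l, hl, by rw [hT l hl]; exact he⟩
    · rintro (h1 | ⟨l, hl, he⟩)
      · exact Or.inl h1
      · exact Or.inr ⟨l, hl, by rw [hT l hl] at he; exact he⟩

theorem verts_image {X Y : MGraph.{u}} (φ : Emb X Y) (A : Set X.E) :
    verts Y {g | ∃ f ∈ A, g = φ.fE f} = φ.fV '' verts X A := by
  ext v
  constructor
  · rintro ⟨g, ⟨f, hf, rfl⟩, hv⟩
    rw [φ.map_ends, Sym2.mem_map] at hv
    obtain ⟨w, hw, rfl⟩ := hv
    exact ⟨w, ⟨f, hf, hw⟩, rfl⟩
  · rintro ⟨w, ⟨f, hf, hw⟩, rfl⟩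
    refine ⟨φ.fE f, ⟨f, hf, rfl⟩, ?_⟩
    rw [φ.map_ends, Sym2.mem_map]
    exact ⟨w, hw, rfl⟩

theorem bd_single {Γ : MGraph.{u}} (e : Γ.E) (c : F2) :
    bd Γ (Finsupp.single e c) = c • bdE Γ e := by
  rw [bd, Finsupp.linearCombination_single]

/-- The comparison given by an embedding. -/
noncomputable def Emb.trans {X Y : MGraph.{u}} (φ : Emb X Y) : Trans X Y where
  ρ g f := g = φ.fE f
  Θ := Finsupp.lmapDomain F2 F2 φ.fE
  ex f := ⟨φ.fE f, rfl⟩
  uniq g f f' h h' := φ.injE (h.symm.trans h')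
  val x g f h := by
    rw [h, Finsupp.lmapDomain_apply, Finsupp.mapDomain_apply φ.injE]
  off x g h := by
    rw [Finsupp.lmapDomain_apply, Finsupp.mapDomain_of_notMem_range]
    rintro ⟨f, hf⟩
    exact h f hf.symm
  ker x := by
    have key : ∀ x, bd Y (Finsupp.lmapDomain F2 F2 φ.fE x)
        = Finsupp.lmapDomain F2 F2 φ.fV (bd X x) := by
      intro x
      induction x using Finsupp.induction_linear with
      | zero => simp
      | add x y hx hy => rw [map_add, map_add, hx, hy, map_add, map_add]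
      | single f c =>
        rw [Finsupp.lmapDomain_apply, Finsupp.mapDomain_single, bd_single, bd_single, map_smul]
        congr 1
        induction hs : X.ends f using Sym2.ind with
        | _ a b =>
          have h1 : Y.ends (φ.fE f) = s(φ.fV a, φ.fV b) := by rw [φ.map_ends, hs]; rfl
          rw [bdE_eq h1, bdE_eq hs, map_add]
          simp [Finsupp.mapDomain_single]
    rw [key]
    constructor
    · intro h; rw [h, map_zero]
    · intro h
      apply Finsupp.mapDomain_injective φ.injV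
      rw [Finsupp.mapDomain_zero]
      exact h
  surj y _ h := by
    have h1 : (y.support : Set Y.E) ⊆ Set.range φ.fE := by
      intro g hg
      by_contra hcon
      apply (Finsupp.mem_support_iff.mp hg)
      apply h
      intro f hf
      exact hcon ⟨f, hf.symm⟩
    exact ⟨Finsupp.comapDomain φ.fE y φ.injE.injOn, Finsupp.mapDomain_comapDomain _ φ.injE y h1⟩
  fin f := by
    have : {g | g = φ.fE f} = {φ.fE f} := by ext g; simp
    rw [this]
    exact Set.toFinite _
  disj A B := by
    rw [verts_image, verts_image]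
    exact Set.disjoint_image_iff φ.injV

theorem Emb.trans_U {X Y : MGraph.{u}} (φ : Emb X Y) (A : Set X.E) :
    φ.trans.U A = φ.fE '' A := by
  ext g
  constructor
  · rintro ⟨f, hf, hg⟩; exact ⟨f, hf, hg.symm⟩
  · rintro ⟨f, hf, hg⟩; exact ⟨f, hf, hg.symm⟩

theorem Emb.data_iff {X Y : MGraph.{u}} (φ : Emb X Y) {S : Set X.E} {N : ℕ} {A : Set X.E}
    {T : ℕ → Set X.E} :
    Data Y (φ.fE '' S) N (φ.fE '' A) (fun l => φ.fE '' (T l)) ↔ Data X S N A T := by
  have h := φ.trans.data_iff (S := S) (N := N) (A := A) (T := T) (by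
    intro l _
    rw [φ.trans_U]
    exact Set.ncard_image_of_injective _ φ.injE)
  simp only [φ.trans_U] at h
  exact h

/-! ### The family -/

/-- The family of graphs. -/
def Fam (X : MGraph.{u}) : Prop :=
  NoIsolated X ∧ ∃ (N : ℕ) (A : Set X.E) (T : ℕ → Set X.E), Data X Set.univ N A T

theorem data_of_mem_copies {Γ : MGraph.{u}} {S : Set Γ.E} (h : S ∈ copies Fam Γ) :
    ∃ N A T, Data Γ S N A T := by
  obtain ⟨X, ⟨-, N, A, T, hD⟩, φ, rfl⟩ := h
  refine ⟨N, φ.fE '' A, fun l => φ.fE '' (T l), ?_⟩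
  rw [← Set.image_univ]
  exact φ.data_iff.mpr hD

/-- The subgraph with edge set `S` and no isolated vertices. -/
def induced (Γ : MGraph.{u}) (S : Set Γ.E) : MGraph.{u} where
  V := {v // v ∈ verts Γ S}
  E := {e // e ∈ S}
  ends e := (Γ.ends e.1).attachWith (fun v hv => ⟨e.1, e.2, hv⟩)

def inducedEmb (Γ : MGraph.{u}) (S : Set Γ.E) : Emb (induced Γ S) Γ where
  fV := Subtype.val
  fE := Subtype.val
  injV := Subtype.val_injective
  injE := Subtype.val_injective
  map_ends e := (Sym2.attachWith_map_subtypeVal _).symm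

theorem mem_copies_of_data {Γ : MGraph.{u}} {S : Set Γ.E} {N : ℕ} {A : Set Γ.E}
    {T : ℕ → Set Γ.E} (h : Data Γ S N A T) : S ∈ copies Fam Γ := by
  refine ⟨induced Γ S, ⟨?_, N, Subtype.val ⁻¹' A, fun l => Subtype.val ⁻¹' (T l), ?_⟩,
    inducedEmb Γ S, Subtype.range_val⟩
  · rintro ⟨v, e, he, hv⟩
    refine ⟨⟨e, he⟩, ?_⟩
    have h1 := (inducedEmb Γ S).map_ends ⟨e, he⟩
    have h2 : v ∈ Γ.ends ((inducedEmb Γ S).fE ⟨e, he⟩) := hv
    rw [h1, Sym2.mem_map] at h2
    obtain ⟨w, hw, hwv⟩ := h2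
    have h3 : w = ⟨v, e, he, hv⟩ := Subtype.ext hwv
    rw [← h3]
    exact hw
  · rw [← (inducedEmb Γ S).data_iff]
    have hS : (inducedEmb Γ S).fE '' Set.univ = S := by
      rw [Set.image_univ]; exact Subtype.range_val
    have hsub : ∀ B : Set Γ.E, B ⊆ S → (inducedEmb Γ S).fE '' (Subtype.val ⁻¹' B) = B := by
      intro B hB
      have : (inducedEmb Γ S).fE '' (Subtype.val ⁻¹' B) = B ∩ S := by
        change Subtype.val '' (Subtype.val ⁻¹' B) = B ∩ S
        rw [Subtype.image_preimage_val, Set.inter_comm]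
      rw [this]
      exact Set.inter_eq_left.mpr hB
    rw [hS, hsub A (fun e he => (h.cover e).mpr (Or.inl he))]
    refine h.congr (fun l hl => ?_)
    exact hsub (T l) (fun e he => (h.cover e).mpr (Or.inr ⟨l, hl, he⟩))

theorem fam_iso {X Y : MGraph.{u}} (h : Isomorphic X Y) : Fam X ↔ Fam Y := by
  obtain ⟨φ, hV, hE⟩ := h
  have hiso : NoIsolated X ↔ NoIsolated Y := by
    constructor
    · intro hX v
      obtain ⟨w, rfl⟩ := hV v
      obtain ⟨e, he⟩ := hX w
      exact ⟨φ.fE e, by rw [φ.map_ends, Sym2.mem_map]; exact ⟨w, he, rfl⟩⟩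
    · intro hY w
      obtain ⟨g, hg⟩ := hY (φ.fV w)
      obtain ⟨e, rfl⟩ := hE g
      rw [φ.map_ends, Sym2.mem_map] at hg
      obtain ⟨w', hw', hww⟩ := hg
      rw [φ.injV hww] at hw'
      exact ⟨e, hw'⟩
  have huniv : φ.fE '' Set.univ = Set.univ := by
    rw [Set.image_univ]; exact hE.range_eq
  unfold Fam
  rw [hiso]
  refine and_congr_right (fun _ => ?_)
  constructor
  · rintro ⟨N, A, T, hD⟩
    refine ⟨N, φ.fE '' A, fun l => φ.fE '' (T l), ?_⟩
    rw [← huniv]
    exact φ.data_iff.mpr hD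
  · rintro ⟨N, A, T, hD⟩
    refine ⟨N, φ.fE ⁻¹' A, fun l => φ.fE ⁻¹' (T l), ?_⟩
    rw [← φ.data_iff, huniv, Set.image_preimage_eq _ hE]
    refine hD.congr (fun l hl => ?_)
    exact Set.image_preimage_eq _ hE

/-! ### Subdivision -/

section subdiv

variable {X : MGraph.{u}} {e : X.E} {a b : X.V}

theorem sub_ends_none : (subdivide X e a b).ends none = s(none, some b) := rfl

theorem sub_ends_self : (subdivide X e a b).ends (some e) = s(some a, none) := by
  simp [subdivide]

theorem sub_ends_ne {f : X.E} (h : f ≠ e) :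
    (subdivide X e a b).ends (some f) = (X.ends f).map some := by
  simp [subdivide, h]

theorem mem_ends_some {f : X.E} (h : f ≠ e) {w : X.V} :
    some w ∈ (subdivide X e a b).ends (some f) ↔ w ∈ X.ends f := by
  rw [sub_ends_ne h, Sym2.mem_map]
  constructor
  · rintro ⟨w', hw', h1⟩
    rw [Option.some.injEq] at h1
    rwa [← h1]
  · intro hw
    exact ⟨w, hw, rfl⟩

theorem none_mem_ends {f : X.E} (h : f ≠ e) :
    none ∉ (subdivide X e a b).ends (some f) := by
  rw [sub_ends_ne h, Sym2.mem_map]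
  rintro ⟨w, -, hw⟩
  exact Option.some_ne_none w hw

/-- The edges of the subdivision lying over `A`. -/
def up (e : X.E) (A : Set X.E) : Set (Option X.E) := {g | ∃ f ∈ A, g.getD e = f}

theorem some_mem_verts (he : X.ends e = s(a, b)) {A : Set X.E} {w : X.V} :
    some w ∈ verts (subdivide X e a b) (up e A) ↔ w ∈ verts X A := by
  constructor
  · rintro ⟨g, ⟨f, hf, hg⟩, hw⟩
    cases g with
    | none =>
      change e = f at hg
      subst hg
      rw [sub_ends_none, Sym2.mem_iff] at hw
      rcases hw with h | h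
      · exact absurd h (Option.some_ne_none w)
      · rw [Option.some.injEq] at h
        exact ⟨e, hf, by rw [he, h]; exact Sym2.mem_mk_right a b⟩
    | some g =>
      change g = f at hg
      subst hg
      by_cases h : g = e
      · subst h
        rw [sub_ends_self, Sym2.mem_iff] at hw
        rcases hw with h | h
        · rw [Option.some.injEq] at h
          exact ⟨g, hf, by rw [he, h]; exact Sym2.mem_mk_left a b⟩
        · exact absurd h (Option.some_ne_none w)
      · exact ⟨g, hf, (mem_ends_some h).mp hw⟩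
  · rintro ⟨f, hf, hw⟩
    by_cases h : f = e
    · subst h
      rw [he, Sym2.mem_iff] at hw
      rcases hw with h | h
      · exact ⟨some f, ⟨f, hf, rfl⟩, by rw [sub_ends_self, h]; exact Sym2.mem_mk_left _ _⟩
      · exact ⟨none, ⟨f, hf, rfl⟩, by rw [sub_ends_none, h]; exact Sym2.mem_mk_right _ _⟩
    · exact ⟨some f, ⟨f, hf, rfl⟩, (mem_ends_some h).mpr hw⟩

theorem none_mem_verts {A : Set X.E} :
    none ∈ verts (subdivide X e a b) (up e A) ↔ e ∈ A := by
  constructor
  · rintro ⟨g, ⟨f, hf, hg⟩, hw⟩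
    cases g with
    | none =>
      change e = f at hg
      rwa [hg]
    | some g =>
      change g = f at hg
      subst hg
      by_cases h : g = e
      · rwa [← h]
      · exact absurd hw (none_mem_ends h)
  · intro h
    exact ⟨none, ⟨e, h, rfl⟩, by rw [sub_ends_none]; exact Sym2.mem_mk_left _ _⟩

theorem sub_disj (he : X.ends e = s(a, b)) (A B : Set X.E) :
    Disjoint (verts (subdivide X e a b) (up e A)) (verts (subdivide X e a b) (up e B)) ↔
      Disjoint (verts X A) (verts X B) := by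
  rw [Set.disjoint_left, Set.disjoint_left]
  constructor
  · intro h w hA hB
    exact h ((some_mem_verts he).mpr hA) ((some_mem_verts he).mpr hB)
  · intro h w hA hB
    cases w with
    | none =>
      rw [none_mem_verts] at hA hB
      exact h (a := a) ⟨e, hA, by rw [he]; exact Sym2.mem_mk_left a b⟩
        ⟨e, hB, by rw [he]; exact Sym2.mem_mk_left a b⟩
    | some w => exact h ((some_mem_verts he).mp hA) ((some_mem_verts he).mp hB)

/-- The comparison map of chains. -/
noncomputable def subΘ (e : X.E) : (X.E →₀ F2) →ₗ[F2] (Option X.E →₀ F2) :=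
  Finsupp.lmapDomain F2 F2 some + (Finsupp.lsingle none).comp (Finsupp.lapply e)

theorem subΘ_some (x : X.E →₀ F2) (f : X.E) : subΘ e x (some f) = x f := by
  simp only [subΘ, LinearMap.add_apply, LinearMap.comp_apply, Finsupp.lmapDomain_apply,
    Finsupp.lapply_apply, Finsupp.lsingle_apply, Finsupp.add_apply]
  rw [Finsupp.mapDomain_apply (Option.some_injective _)]
  simp

theorem subΘ_none (x : X.E →₀ F2) : subΘ e x none = x e := by
  simp only [subΘ, LinearMap.add_apply, LinearMap.comp_apply, Finsupp.lmapDomain_apply,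
    Finsupp.lapply_apply, Finsupp.lsingle_apply, Finsupp.add_apply]
  rw [Finsupp.mapDomain_of_notMem_range]
  · simp
  · rintro ⟨f, hf⟩
    exact Option.some_ne_none f hf

theorem sub_bd (he : X.ends e = s(a, b)) (x : X.E →₀ F2) :
    bd (subdivide X e a b) (subΘ e x) = Finsupp.lmapDomain F2 F2 some (bd X x) := by
  induction x using Finsupp.induction_linear with
  | zero => simp
  | add x y hx hy => rw [map_add, map_add, hx, hy, map_add, map_add]
  | single f c =>
    have h0 : subΘ e (Finsupp.single f c) =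
        Finsupp.single (some f) c + Finsupp.single none (Finsupp.single f c e) := by
      simp only [subΘ, LinearMap.add_apply, LinearMap.comp_apply, Finsupp.lmapDomain_apply,
        Finsupp.lapply_apply, Finsupp.lsingle_apply, Finsupp.mapDomain_single]
    have h7 : bd X (Finsupp.single f c) = c • bdE X f := bd_single _ _
    have h1 : bd (subdivide X e a b) (Finsupp.single none ((Finsupp.single f c) e))
        = (Finsupp.single f c e) • bdE (subdivide X e a b) none := bd_single _ _
    have h2 : bd (subdivide X e a b) (Finsupp.single (some f) c)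
        = c • bdE (subdivide X e a b) (some f) := bd_single _ _
    rw [h0, map_add, h1, h2, h7, map_smul]
    by_cases h : f = e
    · subst h
      rw [Finsupp.single_eq_same, ← smul_add]
      congr 1
      rw [bdE_eq sub_ends_none, bdE_eq sub_ends_self, bdE_eq he, map_add]
      have h3 : (Finsupp.single (none : Option X.V) (1 : F2)) + Finsupp.single none 1 = 0 := by
        rw [← Finsupp.single_add]
        have : (1 : F2) + 1 = 0 := by decide
        rw [this, Finsupp.single_zero]
      have h4 : ∀ (p q r : Option X.V →₀ F2), q + q = 0 → (p + q) + (q + r) = p + r := by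
        intro p q r hq
        have : (p + q) + (q + r) = p + (q + q) + r := by abel
        rw [this, hq, add_zero]
      simp only [Finsupp.lmapDomain_apply, Finsupp.mapDomain_single]
      exact h4 _ _ _ h3
    · have h5 : (Finsupp.single f c) e = 0 := Finsupp.single_eq_of_ne' h
      rw [h5, zero_smul, add_zero]
      congr 1
      induction hs : X.ends f using Sym2.ind with
      | _ p q =>
        have h6 : (subdivide X e a b).ends (some f) = s(some p, some q) := by
          rw [sub_ends_ne h, hs]; rfl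
        rw [bdE_eq h6, bdE_eq hs, map_add]
        simp [Finsupp.mapDomain_single]

/-- The comparison given by a subdivision. -/
noncomputable def subTrans (he : X.ends e = s(a, b)) : Trans X (subdivide X e a b) where
  ρ g f := Option.getD g e = f
  Θ := subΘ e
  ex f := ⟨some f, rfl⟩
  uniq g f f' h h' := h.symm.trans h'
  val x g f h := by
    subst h
    cases g with
    | none => exact subΘ_none x
    | some g => exact subΘ_some x g
  off x g h := absurd rfl (h (Option.getD g e))
  ker x := by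
    rw [sub_bd he]
    constructor
    · intro h; rw [h, map_zero]
    · intro h
      apply Finsupp.mapDomain_injective (Option.some_injective _)
      rw [Finsupp.mapDomain_zero]
      exact h
  surj y hy _ := by
    set x : X.E →₀ F2 := Finsupp.comapDomain some y (Option.some_injective _).injOn with hx
    have hxf : ∀ f, x f = y (some f) := fun f => rfl
    set c : F2 := y none - y (some e) with hc
    have hdec : y = subΘ e x + Finsupp.single none c := by
      refine Finsupp.ext fun g => ?_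
      cases g with
      | none =>
        rw [Finsupp.add_apply, subΘ_none, hxf, Finsupp.single_eq_same, hc]
        abel
      | some g =>
        have h9 : (Finsupp.single (none : Option X.E) c) (some g) = 0 :=
          Finsupp.single_eq_of_ne' (Option.some_ne_none g).symm
        rw [Finsupp.add_apply, subΘ_some, hxf, h9, add_zero]
    have hc0 : c = 0 := by
      have h1 : bd (subdivide X e a b) (subΘ e x) +
          bd (subdivide X e a b) (Finsupp.single none c) = 0 := by
        rw [← map_add]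
        rw [← hdec]
        exact hy
      have h2 := congrFun (congrArg DFunLike.coe h1) (none : Option X.V)
      have h3 : bd (subdivide X e a b) (Finsupp.single none c)
          = c • bdE (subdivide X e a b) none := bd_single _ _
      rw [h3, sub_bd he, bdE_eq sub_ends_none] at h2
      have h4 : (Finsupp.lmapDomain F2 F2 some (bd X x)) (none : Option X.V) = 0 := by
        rw [Finsupp.lmapDomain_apply, Finsupp.mapDomain_of_notMem_range]
        rintro ⟨f, hf⟩
        exact Option.some_ne_none f hf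
      rw [Finsupp.add_apply, h4, Finsupp.smul_apply, Finsupp.add_apply] at h2
      have h5 : (Finsupp.single (some b) (1 : F2)) (none : Option X.V) = 0 :=
        Finsupp.single_eq_of_ne' (Option.some_ne_none b)
      rw [h5, Finsupp.single_eq_same] at h2
      simpa using h2
    refine ⟨x, ?_⟩
    rw [hdec, hc0, Finsupp.single_zero, add_zero]
  fin f := by
    apply (Set.toFinite ({none, some f} : Set (Option X.E))).subset
    intro g hg
    cases g with
    | none => simp
    | some g =>
      change g = f at hg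
      simp [hg]
  disj A B := sub_disj he A B

theorem subTrans_U (he : X.ends e = s(a, b)) (A : Set X.E) : (subTrans he).U A = up e A := rfl

theorem up_univ : up e (Set.univ : Set X.E) = Set.univ := by
  ext g
  simp [up]

theorem up_eq_image {A : Set X.E} (h : e ∉ A) : up e A = some '' A := by
  ext g
  cases g with
  | none =>
    constructor
    · rintro ⟨f, hf, hg⟩
      change e = f at hg
      rw [← hg] at hf
      exact absurd hf h
    · rintro ⟨f, -, hf⟩
      exact absurd hf (Option.some_ne_none f)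
  | some g =>
    constructor
    · rintro ⟨f, hf, hg⟩
      exact ⟨f, hf, by rw [← hg]; rfl⟩
    · rintro ⟨f, hf, hg⟩
      exact ⟨f, hf, by rw [← hg]; rfl⟩

theorem noIsolated_sub (he : X.ends e = s(a, b)) :
    NoIsolated X ↔ NoIsolated (subdivide X e a b) := by
  have h1 : ∀ w : X.V, (∃ f, w ∈ X.ends f) ↔ w ∈ verts X Set.univ := by
    intro w
    constructor
    · rintro ⟨f, hf⟩; exact ⟨f, trivial, hf⟩
    · rintro ⟨f, -, hf⟩; exact ⟨f, hf⟩
  have h2 : ∀ w : Option X.V, (∃ g, w ∈ (subdivide X e a b).ends g) ↔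
      w ∈ verts (subdivide X e a b) (up e Set.univ) := by
    intro w
    rw [up_univ]
    constructor
    · rintro ⟨f, hf⟩; exact ⟨f, trivial, hf⟩
    · rintro ⟨f, -, hf⟩; exact ⟨f, hf⟩
  constructor
  · intro h w
    apply (h2 w).mpr
    cases w with
    | none => exact none_mem_verts.mpr trivial
    | some w => exact (some_mem_verts he).mpr ((h1 w).mp (h w))
  · intro h w
    apply (h1 w).mpr
    exact (some_mem_verts he).mp ((h2 (some w)).mp (h (some w)))

theorem fam_sub (he : X.ends e = s(a, b)) : Fam X ↔ Fam (subdivide X e a b) := by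
  unfold Fam
  rw [noIsolated_sub he]
  refine and_congr_right (fun _ => ?_)
  constructor
  · rintro ⟨N, A, T, hD⟩
    obtain ⟨M, hM, hmem⟩ := hD.mem_absorb (e := e) trivial
    obtain ⟨A', hAA', hA', hTA'⟩ := hD.absorb hM
    have heA : e ∈ A' := hmem M le_rfl A' hAA' hTA'
    refine ⟨M, up e A', fun l => up e (T l), ?_⟩
    rw [← up_univ (e := e)]
    refine ((subTrans he).data_iff ?_).mpr hA'
    intro l hl
    have heT : e ∉ T l := Set.disjoint_left.mp (disjoint_of_verts (hA'.disjA l hl)) heA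
    rw [subTrans_U, up_eq_image heT]
    exact Set.ncard_image_of_injective _ (Option.some_injective _)
  · rintro ⟨N, B, T, hD⟩
    obtain ⟨M₁, hM₁, hmem₁⟩ := hD.mem_absorb (e := (some e : Option X.E)) trivial
    obtain ⟨M₂, hM₂, hmem₂⟩ := hD.mem_absorb (e := (none : Option X.E)) trivial
    obtain ⟨B', hBB', hB', hTB'⟩ := hD.absorb (hM₁.trans (le_max_left M₁ M₂))
    have h1 : (some e : Option X.E) ∈ B' := hmem₁ _ (le_max_left _ _) B' hBB' hTB'
    have h2 : (none : Option X.E) ∈ B' := hmem₂ _ (le_max_right _ _) B' hBB' hTB'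
    set M := max M₁ M₂ with hM
    have key : ∀ C : Set (Option X.E), ((some e : Option X.E) ∈ C ↔ (none : Option X.E) ∈ C) →
        up e {f | some f ∈ C} = C := by
      intro C hC
      ext g
      cases g with
      | none =>
        constructor
        · rintro ⟨f, hf, hg⟩
          change e = f at hg
          subst hg
          exact hC.mp hf
        · intro hg
          exact ⟨e, hC.mpr hg, rfl⟩
      | some g =>
        constructor
        · rintro ⟨f, hf, hg⟩
          change g = f at hg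
          subst hg
          exact hf
        · intro hg
          exact ⟨g, hg, rfl⟩
    have hB'' : up e {f | some f ∈ B'} = B' := key B' (iff_of_true h1 h2)
    have hTs : ∀ l, M < l → (some e : Option X.E) ∉ T l := fun l hl =>
      Set.disjoint_left.mp (disjoint_of_verts (hB'.disjA l hl)) h1
    have hTn : ∀ l, M < l → (none : Option X.E) ∉ T l := fun l hl =>
      Set.disjoint_left.mp (disjoint_of_verts (hB'.disjA l hl)) h2
    have hT'' : ∀ l, M < l → up e {f | some f ∈ T l} = T l := fun l hl =>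
      key (T l) (iff_of_false (hTs l hl) (hTn l hl))
    refine ⟨M, {f | some f ∈ B'}, fun l => {f | some f ∈ T l}, ?_⟩
    refine ((subTrans he).data_iff ?_).mp ?_
    · intro l hl
      have heT : e ∉ {f | (some f : Option X.E) ∈ T l} := hTs l hl
      rw [subTrans_U, up_eq_image heT]
      exact Set.ncard_image_of_injective _ (Option.some_injective _)
    · simp only [subTrans_U]
      rw [up_univ, hB'']
      exact hB'.congr hT''

end subdiv

theorem fam_arises {X Y : MGraph.{u}} (h : Arises X Y) : Fam X ↔ Fam Y := by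
  induction h with
  | refl => exact Iff.rfl
  | tail _ hstep ih =>
    rw [ih]
    rcases hstep with h | ⟨e, a, b, he, h⟩
    · exact fam_iso h
    · exact (fam_sub he).trans (fam_iso h)

theorem fam_homeomorphic {X Y : MGraph.{u}} (hX : Fam X) (h : Homeomorphic X Y) : Fam Y := by
  obtain ⟨Z, h1, h2⟩ := h
  exact (fam_arises h2).mp ((fam_arises h1).mpr hX)

/-! ### Degrees -/

/-- The degree of a vertex, loops counted twice. -/
noncomputable def deg (X : MGraph.{u}) (v : X.V) : ℕ∞ :=
  {e | v ∈ X.ends e}.encard + {e | X.ends e = s(v, v)}.encard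

/-- Some vertex has degree at least `d`. -/
def HasDeg (d : ℕ) (X : MGraph.{u}) : Prop := ∃ v : X.V, (d : ℕ∞) ≤ deg X v

theorem deg_iso {X Y : MGraph.{u}} (φ : Emb X Y) (hE : Function.Surjective φ.fE) (v : X.V) :
    deg Y (φ.fV v) = deg X v := by
  have h1 : {g | φ.fV v ∈ Y.ends g} = φ.fE '' {e | v ∈ X.ends e} := by
    ext g
    constructor
    · intro hg
      obtain ⟨e, rfl⟩ := hE g
      rw [Set.mem_ofPred_eq, φ.map_ends, Sym2.mem_map] at hg
      obtain ⟨w, hw, hwv⟩ := hg
      rw [φ.injV hwv] at hw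
      exact ⟨e, hw, rfl⟩
    · rintro ⟨e, he, rfl⟩
      rw [Set.mem_ofPred_eq, φ.map_ends, Sym2.mem_map]
      exact ⟨v, he, rfl⟩
  have h2 : {g | Y.ends g = s(φ.fV v, φ.fV v)} = φ.fE '' {e | X.ends e = s(v, v)} := by
    ext g
    constructor
    · intro hg
      obtain ⟨e, rfl⟩ := hE g
      refine ⟨e, ?_, rfl⟩
      rw [Set.mem_ofPred_eq, φ.map_ends] at hg
      apply Sym2.map.injective φ.injV
      rw [hg]; rfl
    · rintro ⟨e, he, rfl⟩
      rw [Set.mem_ofPred_eq] at he
      rw [Set.mem_ofPred_eq, φ.map_ends, he]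
      rfl
  rw [deg, deg, h1, h2, φ.injE.encard_image, φ.injE.encard_image]

theorem hasDeg_iso {d : ℕ} {X Y : MGraph.{u}} (h : Isomorphic X Y) : HasDeg d X ↔ HasDeg d Y := by
  obtain ⟨φ, hV, hE⟩ := h
  constructor
  · rintro ⟨v, hv⟩
    exact ⟨φ.fV v, by rwa [deg_iso φ hE]⟩
  · rintro ⟨w, hw⟩
    obtain ⟨v, rfl⟩ := hV w
    exact ⟨v, by rwa [deg_iso φ hE] at hw⟩

section subdiv2

variable {X : MGraph.{u}} {e : X.E} {a b : X.V}

theorem deg_none_le : deg (subdivide X e a b) none ≤ 2 := by
  have h1 : {g | none ∈ (subdivide X e a b).ends g} ⊆ {some e, none} := by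
    intro g hg
    cases g with
    | none => simp
    | some g =>
      by_cases h : g = e
      · simp [h]
      · exact absurd hg (none_mem_ends h)
  have h2 : {g | (subdivide X e a b).ends g = s(none, none)} = ∅ := by
    rw [Set.eq_empty_iff_forall_notMem]
    intro g hg
    cases g with
    | none =>
      rw [Set.mem_ofPred_eq, sub_ends_none] at hg
      have : some b ∈ s((none : Option X.V), none) := by rw [← hg]; exact Sym2.mem_mk_right _ _
      simp at this
    | some g =>
      by_cases h : g = e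
      · subst h
        rw [Set.mem_ofPred_eq, sub_ends_self] at hg
        have : some a ∈ s((none : Option X.V), none) := by rw [← hg]; exact Sym2.mem_mk_left _ _
        simp at this
      · have h3 := none_mem_ends (X := X) (e := e) (a := a) (b := b) h
        rw [Set.mem_ofPred_eq.mp hg] at h3
        simp at h3
  rw [deg, h2, Set.encard_empty, add_zero]
  refine (Set.encard_le_encard h1).trans ?_
  refine (Set.encard_insert_le _ _).trans ?_
  rw [Set.encard_singleton]
  norm_num

theorem deg_some (he : X.ends e = s(a, b)) (w : X.V) :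
    deg (subdivide X e a b) (some w) = deg X w := by
  classical
  set I : Set X.E := {f | w ∈ X.ends f} with hI
  set L : Set X.E := {f | X.ends f = s(w, w)} with hL
  have hsomeinj : Function.Injective (some : X.E → Option X.E) := Option.some_injective _
  -- edges other than `e`
  have hI' : ∀ f, f ≠ e → ((some f : Option X.E) ∈ {g | some w ∈ (subdivide X e a b).ends g} ↔
      f ∈ I) := fun f hf => mem_ends_some hf
  have hL' : ∀ f, f ≠ e → ((some f : Option X.E) ∈
      {g | (subdivide X e a b).ends g = s(some w, some w)} ↔ f ∈ L) := by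
    intro f hf
    rw [Set.mem_ofPred_eq, sub_ends_ne hf]
    constructor
    · intro h
      exact Sym2.map.injective (Option.some_injective _) h
    · intro h
      rw [Set.mem_ofPred_eq.mp h]
      rfl
  have hIe : (some e : Option X.E) ∈ {g | some w ∈ (subdivide X e a b).ends g} ↔ w = a := by
    rw [Set.mem_ofPred_eq, sub_ends_self, Sym2.mem_iff]
    simp
  have hIn : (none : Option X.E) ∈ {g | some w ∈ (subdivide X e a b).ends g} ↔ w = b := by
    rw [Set.mem_ofPred_eq, sub_ends_none, Sym2.mem_iff]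
    simp
  have hLe : (some e : Option X.E) ∉ {g | (subdivide X e a b).ends g = s(some w, some w)} := by
    rw [Set.mem_ofPred_eq, sub_ends_self]
    intro h
    have : (none : Option X.V) ∈ s(some w, some w) := by rw [← h]; exact Sym2.mem_mk_right _ _
    simp at this
  have hLn : (none : Option X.E) ∉ {g | (subdivide X e a b).ends g = s(some w, some w)} := by
    rw [Set.mem_ofPred_eq, sub_ends_none]
    intro h
    have : (none : Option X.V) ∈ s(some w, some w) := by rw [← h]; exact Sym2.mem_mk_left _ _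
    simp at this
  have heI : e ∈ I ↔ w = a ∨ w = b := by
    rw [hI, Set.mem_ofPred_eq, he, Sym2.mem_iff]
  have heL : e ∈ L ↔ w = a ∧ w = b := by
    rw [hL, Set.mem_ofPred_eq, he]
    constructor
    · intro h
      have h1 : a ∈ s(w, w) := by rw [← h]; exact Sym2.mem_mk_left _ _
      have h2 : b ∈ s(w, w) := by rw [← h]; exact Sym2.mem_mk_right _ _
      simp at h1 h2
      exact ⟨h1.symm, h2.symm⟩
    · rintro ⟨h1, h2⟩
      rw [← h1, ← h2]
  have hcases : ∀ (I₁ : Set (Option X.E)) (J : Set X.E),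
      (∀ f, f ≠ e → ((some f : Option X.E) ∈ I₁ ↔ f ∈ J)) → ((some e : Option X.E) ∈ I₁ ↔ e ∈ J) →
      (none : Option X.E) ∉ I₁ → I₁ = some '' J := by
    intro I₁ J h1 h2 h3
    ext g
    cases g with
    | none =>
      constructor
      · intro h; exact absurd h h3
      · rintro ⟨f, -, hf⟩; exact absurd hf (Option.some_ne_none f)
    | some g =>
      have h4 : (some g : Option X.E) ∈ I₁ ↔ g ∈ J := by
        by_cases h : g = e
        · rw [h]; exact h2
        · exact h1 g h
      rw [h4]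
      constructor
      · intro h; exact ⟨g, h, rfl⟩
      · rintro ⟨f, hf, hfg⟩
        rw [← hsomeinj hfg]; exact hf
  have hcases2 : ∀ (I₁ : Set (Option X.E)) (J : Set X.E),
      (∀ f, f ≠ e → ((some f : Option X.E) ∈ I₁ ↔ f ∈ J)) → ((some e : Option X.E) ∈ I₁ ↔ e ∈ J) →
      (none : Option X.E) ∈ I₁ → I₁ = insert none (some '' J) := by
    intro I₁ J h1 h2 h3
    ext g
    cases g with
    | none => exact iff_of_true h3 (Set.mem_insert _ _)
    | some g =>
      have h4 : (some g : Option X.E) ∈ I₁ ↔ g ∈ J := by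
        by_cases h : g = e
        · rw [h]; exact h2
        · exact h1 g h
      rw [h4, Set.mem_insert_iff]
      constructor
      · intro h; exact Or.inr ⟨g, h, rfl⟩
      · rintro (h | ⟨f, hf, hfg⟩)
        · exact absurd h (Option.some_ne_none g)
        · rw [← hsomeinj hfg]; exact hf
  have hnone : ∀ J : Set X.E, (none : Option X.E) ∉ some '' J := by
    rintro J ⟨f, -, hf⟩; exact Option.some_ne_none f hf
  rw [deg, deg]
  change _ = I.encard + L.encard
  by_cases hb : w = b
  · by_cases ha : w = a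
    · -- a loop at `w`
      have e1 := hcases2 _ I hI' (by rw [hIe, heI]; simp [ha]) (hIn.mpr hb)
      have e2 := hcases _ (L \ {e}) (fun f hf => by
        rw [hL' f hf]; simp [hf]) (by simp [hLe]) hLn
      rw [e1, e2, Set.encard_insert_of_notMem (hnone I), hsomeinj.encard_image,
        hsomeinj.encard_image, add_assoc, add_comm 1,
        Set.encard_sdiff_singleton_add_one (heL.mpr ⟨ha, hb⟩)]
    · have e1 := hcases2 _ (I \ {e}) (fun f hf => by
        rw [hI' f hf]; simp [hf]) (by rw [hIe]; simp [ha]) (hIn.mpr hb)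
      have e2 := hcases _ L hL' (by
        refine iff_of_false hLe (fun h => ha (heL.mp h).1)) hLn
      rw [e1, e2, Set.encard_insert_of_notMem (hnone _), hsomeinj.encard_image,
        hsomeinj.encard_image, Set.encard_sdiff_singleton_add_one (heI.mpr (Or.inr hb))]
  · have e1 := hcases _ I hI' (by rw [hIe, heI]; simp [hb]) (fun h => hb (hIn.mp h))
    have e2 := hcases _ L hL' (by
      refine iff_of_false hLe (fun h => hb (heL.mp h).2)) hLn
    rw [e1, e2, hsomeinj.encard_image, hsomeinj.encard_image]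

theorem hasDeg_sub {d : ℕ} (hd : 3 ≤ d) (he : X.ends e = s(a, b)) :
    HasDeg d X ↔ HasDeg d (subdivide X e a b) := by
  constructor
  · rintro ⟨v, hv⟩
    exact ⟨some v, by rwa [deg_some he]⟩
  · rintro ⟨w, hw⟩
    cases w with
    | none =>
      exfalso
      have h1 := hw.trans deg_none_le
      have h2 : (d : ℕ∞) ≤ ((2 : ℕ) : ℕ∞) := h1
      rw [Nat.cast_le] at h2
      omega
    | some v => exact ⟨v, by rwa [deg_some he] at hw⟩

end subdiv2

theorem hasDeg_arises {d : ℕ} (hd : 3 ≤ d) {X Y : MGraph.{u}} (h : Arises X Y) :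
    HasDeg d X ↔ HasDeg d Y := by
  induction h with
  | refl => exact Iff.rfl
  | tail _ hstep ih =>
    rw [ih]
    rcases hstep with h | ⟨e, a, b, he, h⟩
    · exact hasDeg_iso h
    · exact (hasDeg_sub hd he).trans (hasDeg_iso h)

theorem hasDeg_homeomorphic {d : ℕ} (hd : 3 ≤ d) {X Y : MGraph.{u}} (h : Homeomorphic X Y) :
    HasDeg d X ↔ HasDeg d Y := by
  obtain ⟨Z, h1, h2⟩ := h
  exact (hasDeg_arises hd h1).symm.trans (hasDeg_arises hd h2)

/-! ### Examples -/

/-- The bouquet of `k` loops. -/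
abbrev bouquet (k : ℕ) : MGraph.{u} where
  V := PUnit
  E := ULift (Fin k)
  ends _ := s(PUnit.unit, PUnit.unit)

theorem bouquet_bd (k : ℕ) (x : (bouquet.{u} k).E →₀ F2) : bd (bouquet.{u} k) x = 0 := by
  induction x using Finsupp.induction_linear with
  | zero => exact map_zero _
  | add x y hx hy => rw [map_add, hx, hy, add_zero]
  | single f c =>
    have h : (bouquet.{u} k).ends f = s(PUnit.unit, PUnit.unit) := rfl
    rw [bd_single, bdE_eq h, ← Finsupp.single_add]
    have : (1 : F2) + 1 = 0 := by decide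
    rw [this, Finsupp.single_zero, smul_zero]

theorem bouquet_bridgeless (k : ℕ) : Bridgeless (bouquet.{u} k) Set.univ := by
  intro e _
  refine ⟨Finsupp.single e 1, ?_, by rw [Finsupp.single_eq_same]; exact one_ne_zero⟩
  rw [mem_Z]
  exact ⟨bouquet_bd k _, fun f hf => absurd trivial hf⟩

theorem bouquet_null (k : ℕ) : null (bouquet.{u} k) Set.univ = k := by
  have h1 : Z (bouquet.{u} k) Set.univ = ⊤ := by
    rw [eq_top_iff]
    intro x _
    rw [mem_Z]
    exact ⟨bouquet_bd k _, fun f hf => absurd trivial hf⟩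
  rw [null, h1, finrank_top]
  have h2 : Module.finrank F2 (ULift.{u} (Fin k) →₀ F2) = k := by
    rw [Module.finrank_finsupp_self]
    simp
  exact h2

/-- The cycle of length `n + 1`. -/
abbrev cyc (n : ℕ) : MGraph.{u} where
  V := ULift (Fin (n + 1))
  E := ULift (Fin (n + 1))
  ends i := s(i, ⟨i.down + 1⟩)

theorem cyc_bd (n : ℕ) (x : (cyc.{u} n).E →₀ F2) (j : Fin (n + 1)) :
    bd (cyc.{u} n) x (ULift.up (j + 1)) = x (ULift.up (j + 1)) + x (ULift.up j) := by
  classical
  induction x using Finsupp.induction_linear with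
  | zero => simp
  | add x y hx hy =>
    rw [map_add, Finsupp.add_apply, hx, hy, Finsupp.add_apply, Finsupp.add_apply]
    abel
  | single f c =>
    have h : (cyc.{u} n).ends f = s(f, ⟨f.down + 1⟩) := rfl
    rw [bd_single, bdE_eq h, Finsupp.smul_apply, Finsupp.add_apply, smul_add]
    have h3 : (⟨f.down + 1⟩ : ULift.{u} (Fin (n + 1))) = ULift.up (j + 1) ↔
        f = ULift.up j := by
      constructor
      · intro h4
        have h5 : f.down + 1 = j + 1 := congrArg ULift.down h4
        have h6 : f.down = j := add_right_cancel h5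
        rw [← h6]
      · intro h4
        rw [h4]
    rw [Finsupp.single_apply, Finsupp.single_apply, Finsupp.single_apply, Finsupp.single_apply]
    simp only [h3]
    split_ifs <;> simp

theorem cyc_isCirc (n : ℕ) : IsCirc (cyc.{u} n) Set.univ := by
  classical
  have hadd : ∀ c d : F2, c + d = 0 → c = d := by decide
  have h01 : ∀ c : F2, c = 0 ∨ c = 1 := by decide
  let x : (cyc.{u} n).E →₀ F2 := Finsupp.equivFunOnFinite.symm (fun _ : ULift.{u} (Fin (n + 1)) => 1)
  have hx1 : ∀ i, x i = 1 := fun i => rfl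
  have hv : ∀ v : ULift.{u} (Fin (n + 1)), ∃ j : Fin (n + 1), v = ULift.up (j + 1) := by
    intro v
    exact ⟨v.down - 1, by rw [sub_add_cancel]⟩
  refine ⟨⟨ULift.up 0, trivial⟩, x, ?_, fun e _ => hx1 e, ?_⟩
  · rw [mem_Z]
    refine ⟨?_, fun f hf => absurd trivial hf⟩
    refine Finsupp.ext fun v => ?_
    obtain ⟨j, rfl⟩ := hv v
    rw [cyc_bd, hx1, hx1]
    exact (by decide : (1 : F2) + 1 = 0)
  · intro y hy
    have hy0 := (mem_Z.mp hy).1
    have hstep : ∀ j : Fin (n + 1), y (ULift.up (j + 1)) = y (ULift.up j) := by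
      intro j
      apply hadd
      rw [← cyc_bd, hy0]
      rfl
    have hconst : ∀ j : Fin (n + 1), y (ULift.up j) = y (ULift.up 0) := by
      intro j
      induction j using Fin.induction with
      | zero => rfl
      | succ i ih =>
        have h1 := hstep i.castSucc
        rw [Fin.coeSucc_eq_succ] at h1
        rw [h1, ih]
    rcases h01 (y (ULift.up 0)) with h | h
    · left
      refine Finsupp.ext fun i => ?_
      obtain ⟨j, rfl⟩ := hv i
      rw [hconst, h]
      rfl
    · right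
      refine Finsupp.ext fun i => ?_
      obtain ⟨j, rfl⟩ := hv i
      rw [hconst, h, hx1]

theorem cyc_card (n : ℕ) : (Set.univ : Set (cyc.{u} n).E).ncard = n + 1 := by
  rw [Set.ncard_univ]
  change Nat.card (ULift.{u} (Fin (n + 1))) = n + 1
  simp

/-- The example: `k` loops at one vertex, and one cycle of each length larger than `k`. -/
abbrev ex (k : ℕ) : MGraph.{u} where
  V := PUnit.{u + 1} ⊕ ULift.{u} (Σ l : ℕ, Fin (k + l + 1))
  E := ULift.{u} (Fin k) ⊕ ULift.{u} (Σ l : ℕ, Fin (k + l + 1))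
  ends := Sum.elim (fun _ => s(Sum.inl PUnit.unit, Sum.inl PUnit.unit))
    (fun p => s(Sum.inr p, Sum.inr ⟨⟨p.down.1, p.down.2 + 1⟩⟩))

theorem ex_ends_inl {k : ℕ} (i : ULift.{u} (Fin k)) :
    (ex.{u} k).ends (Sum.inl i) = s(Sum.inl PUnit.unit, Sum.inl PUnit.unit) := rfl

theorem ex_ends_inr {k : ℕ} (p : ULift.{u} (Σ l : ℕ, Fin (k + l + 1))) :
    (ex.{u} k).ends (Sum.inr p) = s(Sum.inr p, Sum.inr ⟨⟨p.down.1, p.down.2 + 1⟩⟩) := rfl

def embB (k : ℕ) : Emb (bouquet.{u} k) (ex.{u} k) where
  fV := Sum.inl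
  fE := Sum.inl
  injV := Sum.inl_injective
  injE := Sum.inl_injective
  map_ends _ := rfl

def embC (k l : ℕ) : Emb (cyc.{u} (k + l)) (ex.{u} k) where
  fV i := Sum.inr ⟨⟨l, i.down⟩⟩
  fE i := Sum.inr ⟨⟨l, i.down⟩⟩
  injV i j h := by
    have h1 := congrArg ULift.down (Sum.inr.inj h)
    have h2 := eq_of_heq (Sigma.mk.inj h1).2
    exact ULift.ext _ _ h2
  injE i j h := by
    have h1 := congrArg ULift.down (Sum.inr.inj h)
    have h2 := eq_of_heq (Sigma.mk.inj h1).2
    exact ULift.ext _ _ h2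
  map_ends _ := rfl

theorem verts_embB {k : ℕ} {v : (ex.{u} k).V}
    (hv : v ∈ verts (ex.{u} k) ((embB.{u} k).fE '' Set.univ)) : v = Sum.inl PUnit.unit := by
  obtain ⟨_, ⟨e, _, rfl⟩, hv⟩ := hv
  rw [(embB.{u} k).map_ends, Sym2.mem_map] at hv
  obtain ⟨w, -, rfl⟩ := hv
  rfl

theorem verts_embC {k l : ℕ} {v : (ex.{u} k).V}
    (hv : v ∈ verts (ex.{u} k) ((embC.{u} k l).fE '' Set.univ)) :
    ∃ i : Fin (k + l + 1), v = Sum.inr ⟨⟨l, i⟩⟩ := by
  obtain ⟨_, ⟨e, _, rfl⟩, hv⟩ := hv
  rw [(embC.{u} k l).map_ends, Sym2.mem_map] at hv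
  obtain ⟨w, -, rfl⟩ := hv
  exact ⟨w.down, rfl⟩

/-- The cycle of length `m` in the example. -/
def exT (k m : ℕ) : Set (ex.{u} k).E := (embC.{u} k (m - k - 1)).fE '' Set.univ

theorem ex_data (k : ℕ) : Data (ex.{u} k) Set.univ k ((embB.{u} k).fE '' Set.univ) (exT k) where
  finA := by
    apply Set.Finite.image
    exact Set.finite_univ
  brA := by
    rw [← Emb.trans_U]
    exact (Emb.trans _).bridgeless_U.mpr (bouquet_bridgeless k)
  nullA := by
    rw [← Emb.trans_U]
    exact ((Emb.trans _).null_U _).trans (bouquet_null k)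
  circ l hl := by
    rw [exT, ← Emb.trans_U]
    exact (Emb.trans _).isCirc_U.mpr (cyc_isCirc _)
  card l hl := by
    rw [exT, Set.ncard_image_of_injective _ (Emb.injE _)]
    refine (cyc_card _).trans ?_
    omega
  disjA l hl := by
    rw [Set.disjoint_left]
    intro v h1 h2
    have h3 := verts_embB h1
    obtain ⟨i, h4⟩ := verts_embC h2
    rw [h3] at h4
    exact absurd h4 Sum.inl_ne_inr
  disjT l hl l' hl' hne := by
    rw [Set.disjoint_left]
    intro v h1 h2
    obtain ⟨i, h3⟩ := verts_embC h1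
    obtain ⟨i', h4⟩ := verts_embC h2
    rw [h3] at h4
    have h5 := congrArg ULift.down (Sum.inr.inj h4)
    have h6 := (Sigma.mk.inj h5).1
    omega
  cover e := by
    refine iff_of_true trivial ?_
    rcases e with i | ⟨⟨l, i⟩⟩
    · exact Or.inl ⟨i, trivial, rfl⟩
    · right
      refine ⟨k + l + 1, by omega, ?_⟩
      have h : k + l + 1 - k - 1 = l := by omega
      rw [exT, h]
      exact ⟨⟨i⟩, trivial, rfl⟩

theorem ex_noIsolated {k : ℕ} (hk : 0 < k) : NoIsolated (ex.{u} k) := by
  rintro (v | v)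
  · cases v
    exact ⟨Sum.inl ⟨⟨0, hk⟩⟩, by rw [ex_ends_inl]; exact Sym2.mem_mk_left _ _⟩
  · exact ⟨Sum.inr v, by rw [ex_ends_inr]; exact Sym2.mem_mk_left _ _⟩

theorem ex_fam {k : ℕ} (hk : 0 < k) : Fam (ex.{u} k) := ⟨ex_noIsolated hk, k, _, _, ex_data k⟩

theorem ex_deg_hub (k : ℕ) : deg (ex.{u} k) (Sum.inl PUnit.unit) = (2 * k : ℕ) := by
  have h2 : {e | (Sum.inl PUnit.unit : (ex.{u} k).V) ∈ (ex.{u} k).ends e} = Set.range Sum.inl := by
    ext e
    rcases e with i | p
    · refine iff_of_true ?_ ⟨i, rfl⟩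
      rw [Set.mem_ofPred_eq, ex_ends_inl]
      exact Sym2.mem_mk_left _ _
    · refine iff_of_false ?_ ?_
      · rw [Set.mem_ofPred_eq, ex_ends_inr, Sym2.mem_iff]
        rintro (h | h)
        · exact Sum.inl_ne_inr h
        · exact Sum.inl_ne_inr h
      · rintro ⟨i, hi⟩
        exact Sum.inl_ne_inr hi
  have h3 : {e | (ex.{u} k).ends e = s(Sum.inl PUnit.unit, Sum.inl PUnit.unit)}
      = Set.range Sum.inl := by
    ext e
    rcases e with i | p
    · exact iff_of_true rfl ⟨i, rfl⟩
    · refine iff_of_false ?_ ?_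
      · rw [Set.mem_ofPred_eq, ex_ends_inr]
        intro h
        have h5 : (Sum.inl PUnit.unit : (ex.{u} k).V) ∈
            s((Sum.inr p : (ex.{u} k).V), Sum.inr ⟨⟨p.down.1, p.down.2 + 1⟩⟩) := by
          rw [h]; exact Sym2.mem_mk_left _ _
        rw [Sym2.mem_iff] at h5
        rcases h5 with h | h
        · exact Sum.inl_ne_inr h
        · exact Sum.inl_ne_inr h
      · rintro ⟨i, hi⟩
        exact Sum.inl_ne_inr hi
  have h4 : (Set.range (Sum.inl : ULift.{u} (Fin k) →
      ULift.{u} (Fin k) ⊕ ULift.{u} (Σ l : ℕ, Fin (k + l + 1)))).encard = (k : ℕ∞) := by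
    rw [← Set.image_univ, Sum.inl_injective.encard_image, Set.encard_univ]
    simp
  rw [deg, h2, h3, h4]
  push_cast
  ring

theorem ex_deg_other {k : ℕ} (hk : 0 < k) (v : ULift.{u} (Σ l : ℕ, Fin (k + l + 1))) :
    deg (ex.{u} k) (Sum.inr v) ≤ 2 := by
  have h1 : {e | (Sum.inr v : (ex.{u} k).V) ∈ (ex.{u} k).ends e} ⊆
      {(Sum.inr v : (ex.{u} k).E), (Sum.inr ⟨⟨v.down.1, v.down.2 - 1⟩⟩ : (ex.{u} k).E)} := by
    rintro (i | p) h
    · rw [Set.mem_ofPred_eq, ex_ends_inl, Sym2.mem_iff] at h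
      rcases h with h | h
      · exact absurd h Sum.inr_ne_inl
      · exact absurd h Sum.inr_ne_inl
    · rw [Set.mem_ofPred_eq, ex_ends_inr, Sym2.mem_iff] at h
      rcases h with h | h
      · left; rw [Sum.inr.inj h]
      · right
        have h2 := Sum.inr.inj h
        rw [Set.mem_singleton_iff, h2]
        obtain ⟨⟨l, i⟩⟩ := p
        change (Sum.inr ⟨⟨l, i⟩⟩ : (ex.{u} k).E) = Sum.inr ⟨⟨l, i + 1 - 1⟩⟩
        rw [add_sub_cancel_right]
  have h2 : {e | (ex.{u} k).ends e = s((Sum.inr v : (ex.{u} k).V), Sum.inr v)} = ∅ := by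
    rw [Set.eq_empty_iff_forall_notMem]
    rintro (i | p) h
    · rw [Set.mem_ofPred_eq, ex_ends_inl] at h
      have h3 : (Sum.inl PUnit.unit : (ex.{u} k).V) ∈ s((Sum.inr v : (ex.{u} k).V), Sum.inr v) := by
        rw [← h]; exact Sym2.mem_mk_left _ _
      rw [Sym2.mem_iff, or_self] at h3
      exact Sum.inl_ne_inr h3
    · rw [Set.mem_ofPred_eq, ex_ends_inr] at h
      have h3 : (Sum.inr p : (ex.{u} k).V) ∈ s((Sum.inr v : (ex.{u} k).V), Sum.inr v) := by
        rw [← h]; exact Sym2.mem_mk_left _ _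
      have h4 : (Sum.inr ⟨⟨p.down.1, p.down.2 + 1⟩⟩ : (ex.{u} k).V) ∈
          s((Sum.inr v : (ex.{u} k).V), Sum.inr v) := by
        rw [← h]; exact Sym2.mem_mk_right _ _
      rw [Sym2.mem_iff, or_self] at h3 h4
      have h5 := Sum.inr.inj h3
      have h6 := Sum.inr.inj h4
      rw [← h5] at h6
      obtain ⟨⟨l, i⟩⟩ := p
      have h7 := congrArg ULift.down h6
      have h8 : i + 1 = i := eq_of_heq (Sigma.mk.inj h7).2
      have h9 : (1 : Fin (k + l + 1)) = 0 := by
        have := congrArg (fun t => t - i) h8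
        simpa using this
      have h10 := congrArg Fin.val h9
      rw [Fin.val_one', Fin.val_zero, Nat.mod_eq_of_lt (by omega)] at h10
      omega
  rw [deg, h2, Set.encard_empty, add_zero]
  refine (Set.encard_le_encard h1).trans ?_
  refine (Set.encard_insert_le _ _).trans ?_
  rw [Set.encard_singleton]
  norm_num

theorem ex_hasDeg {k d : ℕ} (hk : 0 < k) (hd : 3 ≤ d) : HasDeg d (ex.{u} k) ↔ d ≤ 2 * k := by
  constructor
  · rintro ⟨(v | v), hv⟩
    · cases v
      rw [ex_deg_hub, Nat.cast_le] at hv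
      exact hv
    · have h1 := hv.trans (ex_deg_other hk v)
      have h2 : (d : ℕ∞) ≤ ((2 : ℕ) : ℕ∞) := h1
      rw [Nat.cast_le] at h2
      omega
  · intro h
    refine ⟨Sum.inl PUnit.unit, ?_⟩
    rw [ex_deg_hub, Nat.cast_le]
    exact h

/-- There is a generalized matroidal family of graphs without isolated vertices that is closed
under homeomorphism and has infinitely many homeomorphism classes. -/
theorem result : ∃ P : MGraph.{u} → Prop, IsGenMatroidal P ∧ (∀ X, P X → NoIsolated X) ∧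
    (∀ X Y, P X → Homeomorphic X Y → P Y) ∧
    Infinite (Quot (fun X Y : {X : MGraph.{u} // P X} => Homeomorphic X.1 Y.1)) := by
  refine ⟨Fam, ⟨⟨ex 1, ex_fam one_pos⟩, fun Γ => ⟨?_, ?_⟩⟩, fun X hX => hX.1,
    fun X Y hX h => fam_homeomorphic hX h, ?_⟩
  · intro S hS S' hS' hlt
    obtain ⟨N, A, T, h⟩ := data_of_mem_copies hS
    obtain ⟨N', A', T', h'⟩ := data_of_mem_copies hS'
    exact hlt.ne (C1 h h' hlt.subset)
  · intro S hS S' hS' hne e he
    obtain ⟨N, A, T, h⟩ := data_of_mem_copies hS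
    obtain ⟨N', A', T', h'⟩ := data_of_mem_copies hS'
    obtain ⟨S'', M, B, hD, hsub⟩ := C2 h h' hne he.1
    exact ⟨S'', mem_copies_of_data hD, hsub⟩
  · apply Infinite.of_injective
      (fun k : ℕ => Quot.mk (fun X Y : {X : MGraph.{u} // Fam X} => Homeomorphic X.1 Y.1)
        ⟨ex (k + 2), ex_fam (by omega)⟩)
    intro j k hjk
    have key : ∀ d, 3 ≤ d → (HasDeg d (ex.{u} (j + 2)) ↔ HasDeg d (ex.{u} (k + 2))) := by
      intro d hd
      let f : Quot (fun X Y : {X : MGraph.{u} // Fam X} => Homeomorphic X.1 Y.1) → Prop :=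
        Quot.lift (fun X => HasDeg d X.1) (fun X Y h => propext (hasDeg_homeomorphic hd h))
      have h1 := congrArg f hjk
      exact iff_of_eq h1
    have h1 := key (2 * (j + 2)) (by omega)
    have h2 := key (2 * (k + 2)) (by omega)
    rw [ex_hasDeg (by omega) (by omega), ex_hasDeg (by omega) (by omega)] at h1 h2
    omega

end Pool.Agent.Results.MP_221c76_co.InfinitelyMany
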